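import Pool.Agent.H31.TL.Nu

/-!
# JL CFDef: the local factors of the characteristic function
-/

set_option autoImplicit false

namespace Pool.Agent.H31.JL

open Finset
open Pool.Agent.H31.TL

/-- the local factor at `p` of the characteristic function -/
noncomputable def cf (p : ℕ) (s t : ℝ) : ℂ :=
  (1 - 1 / (p : ℂ)) ^ 2 + ∑' k : ℕ,
    ((1 - 1 / (p : ℂ)) * Complex.exp (((s / (p : ℝ) ^ (k + 1) : ℝ) : ℂ) * Complex.I) +
      (1 - 1 / (p : ℂ)) ^ 2 * Complex.exp (((t / (p : ℝ) ^ (k + 1) : ℝ) : ℂ) * Complex.I)) /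
        (p : ℂ) ^ (k + 1)

/-- the local factor with truncated exponents -/
noncomputable def cfT (p A : ℕ) (s t : ℝ) : ℂ :=
  ∑ a : St A, (nu p A a : ℂ) *
    Complex.exp (((s * el p (a.1 : ℕ) + t * el p (a.2 : ℕ) : ℝ) : ℂ) * Complex.I)

end Pool.Agent.H31.JL
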