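import Pool.Agent.H31.JL.CFProd

/-!
# JL CFLaw: the characteristic function of the limit law as a product over the primes
-/

set_option autoImplicit false

namespace Pool.Agent.H31.JL

open Finset Filter Topology MeasureTheory
open Pool.Agent.H31.TL

theorem cf_law (μ : Measure (ℝ × ℝ)) [IsProbabilityMeasure μ]
    (h : ∀ φ : BoundedContinuousFunction (ℝ × ℝ) ℝ, Tendsto
      (fun z : ℕ => ∑ q, φ (XX z z q, YY z z q) * wt z z q) atTop (𝓝 (∫ x, φ x ∂μ)))
    (s t : ℝ) : Tendsto (fun z : ℕ => ∏ p ∈ DD.Pz z, cf p s t) atTop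
      (𝓝 (∫ x, Complex.exp (((s * x.1 + t * x.2 : ℝ) : ℂ) * Complex.I) ∂μ)) := by
  obtain ⟨φc, hφc⟩ : ∃ φ : BoundedContinuousFunction (ℝ × ℝ) ℝ,
      ∀ x, φ x = Real.cos (s * x.1 + t * x.2) :=
    ⟨BoundedContinuousFunction.ofNormedAddCommGroup (fun x => Real.cos (s * x.1 + t * x.2))
      (by fun_prop) 1 (fun x => by
        rw [Real.norm_eq_abs]
        exact Real.abs_cos_le_one _), fun x => rfl⟩
  obtain ⟨φs, hφs⟩ : ∃ φ : BoundedContinuousFunction (ℝ × ℝ) ℝ,
      ∀ x, φ x = Real.sin (s * x.1 + t * x.2) :=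
    ⟨BoundedContinuousFunction.ofNormedAddCommGroup (fun x => Real.sin (s * x.1 + t * x.2))
      (by fun_prop) 1 (fun x => by
        rw [Real.norm_eq_abs]
        exact Real.abs_sin_le_one _), fun x => rfl⟩
  have hexp : ∀ θ : ℝ, Complex.exp ((θ : ℂ) * Complex.I) =
      ((Real.cos θ : ℝ) : ℂ) + ((Real.sin θ : ℝ) : ℂ) * Complex.I := by
    intro θ
    rw [Complex.exp_mul_I, Complex.ofReal_cos, Complex.ofReal_sin]
  have hint : ∫ x, Complex.exp (((s * x.1 + t * x.2 : ℝ) : ℂ) * Complex.I) ∂μ =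
      ((∫ x, φc x ∂μ : ℝ) : ℂ) + ((∫ x, φs x ∂μ : ℝ) : ℂ) * Complex.I := by
    have h1 : ∀ x : ℝ × ℝ, Complex.exp (((s * x.1 + t * x.2 : ℝ) : ℂ) * Complex.I) =
        ((φc x : ℝ) : ℂ) + ((φs x : ℝ) : ℂ) * Complex.I := by
      intro x
      rw [hexp, hφc, hφs]
    simp only [h1]
    rw [integral_add (φc.integrable μ).ofReal ((φs.integrable μ).ofReal.mul_const _),
      integral_mul_const]
    congr 1
    · exact integral_ofReal
    · congr 1
      exact integral_ofReal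
  have hprod : ∀ z : ℕ, ∏ p ∈ DD.Pz z, cfT p z s t =
      ((∑ q, φc (XX z z q, YY z z q) * wt z z q : ℝ) : ℂ) +
        ((∑ q, φs (XX z z q, YY z z q) * wt z z q : ℝ) : ℂ) * Complex.I := by
    intro z
    rw [← pat_prod, Complex.ofReal_sum, Complex.ofReal_sum, Finset.sum_mul,
      ← Finset.sum_add_distrib]
    refine Finset.sum_congr rfl fun q _ => ?_
    rw [hexp, hφc, hφs, Complex.ofReal_mul, Complex.ofReal_mul]
    ring
  have h1 : Tendsto (fun z : ℕ => ∏ p ∈ DD.Pz z, cfT p z s t) atTop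
      (𝓝 (∫ x, Complex.exp (((s * x.1 + t * x.2 : ℝ) : ℂ) * Complex.I) ∂μ)) := by
    rw [hint]
    simp only [hprod]
    exact ((Complex.continuous_ofReal.tendsto _).comp (h φc)).add
      (((Complex.continuous_ofReal.tendsto _).comp (h φs)).mul_const _)
  have h2 := h1.sub (cf_lim s t)
  rw [sub_zero] at h2
  refine h2.congr fun z => ?_
  ring

end Pool.Agent.H31.JL
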