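import Pool.Agent.H31.JL.CFDef

/-!
# JL CFLoc: the truncated local factor is close to the full one

`nu p A (i, j)` is `(1 - 1/p) al(j)` for `i = 0`, `al(i)` for `i > 0 = j`, `0` otherwise; `al(i) = (1 - 1/p) / p^i` for `i < A`,
`1 / p^A` for `i = A`. So (`Fintype.sum_prod_type`, `Fin.sum_univ_succ`, as in `nu_sum` of `TL/Nu.lean`)
`cfT = (1 - 1/p)^2 + ∑_(k < A - 1) f k + R` with `f` the summand of `cf` and `R = (1 - 1/p) / p^A e(t / p^A) + 1 / p^A e(s / p^A)`,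
`‖R‖ ≤ 2 / p^A`. `‖f k‖ ≤ 2 / p^(k+1)`, so the tail of the series from `k = A - 1` is at most `2 / p^A * 1 / (1 - 1/p) ≤ 4 / p^A`
(`Summable.sum_add_tsum_nat_add`, `tsum_of_norm_bounded`, `hasSum_geometric_of_lt_one`). Together `6 / p^A ≤ 6 / 2^A`.
-/

set_option autoImplicit false

namespace Pool.Agent.H31.JL

open Finset
open Pool.Agent.H31.TL

/-- the phase -/
private noncomputable def ee (x : ℝ) : ℂ := Complex.exp ((x : ℂ) * Complex.I)

private theorem ee_norm (x : ℝ) : ‖ee x‖ = 1 := Complex.norm_exp_ofReal_mul_I x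

private theorem ee_zero : ee 0 = 1 := by unfold ee; simp

/-- the summand of `cf` -/
private noncomputable def ff (p : ℕ) (s t : ℝ) (k : ℕ) : ℂ :=
  ((1 - 1 / (p : ℂ)) * ee (s / (p : ℝ) ^ (k + 1)) +
    (1 - 1 / (p : ℂ)) ^ 2 * ee (t / (p : ℝ) ^ (k + 1))) / (p : ℂ) ^ (k + 1)

/-- the summand of `cfT` -/
private noncomputable def gf (p A : ℕ) (s t : ℝ) (k : ℕ) : ℂ :=
  (al p A (k + 1) : ℂ) * ee (s / (p : ℝ) ^ (k + 1)) +
    (1 - 1 / (p : ℂ)) * (al p A (k + 1) : ℂ) * ee (t / (p : ℝ) ^ (k + 1))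

private theorem cf_ff (p : ℕ) (s t : ℝ) :
    cf p s t = (1 - 1 / (p : ℂ)) ^ 2 + ∑' k : ℕ, ff p s t k := rfl

private theorem el_succ (p k : ℕ) : el p (k + 1) = 1 / (p : ℝ) ^ (k + 1) := by
  unfold el
  rw [if_neg (Nat.succ_ne_zero k)]

private theorem el_zero (p : ℕ) : el p 0 = 0 := by
  unfold el
  rw [if_pos rfl]

private theorem cfT_gf (p A : ℕ) (hA : 1 ≤ A) (s t : ℝ) :
    cfT p A s t = (1 - 1 / (p : ℂ)) ^ 2 + ∑ k ∈ range A, gf p A s t k := by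
  have h0 : al p A 0 = 1 - 1 / (p : ℝ) := by
    unfold al
    rw [if_pos (show 0 < A by omega), pow_zero, div_one]
  have e1 : ∀ j : Fin A, (nu p A ((0 : Fin (A + 1)), j.succ) : ℂ) * ee (s * el p ((0 : Fin (A + 1)) : ℕ) +
      t * el p ((j.succ : Fin (A + 1)) : ℕ)) =
      (1 - 1 / (p : ℂ)) * (al p A ((j : ℕ) + 1) : ℂ) * ee (t / (p : ℝ) ^ ((j : ℕ) + 1)) := by
    intro j
    unfold nu
    rw [if_pos (show (((0 : Fin (A + 1)), j.succ).1 : ℕ) = 0 from rfl)]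
    simp only [Fin.val_zero, Fin.val_succ, el_zero, el_succ, mul_zero, zero_add, mul_one_div]
    push_cast
    ring
  have e2 : ∀ i : Fin A, (nu p A (i.succ, (0 : Fin (A + 1))) : ℂ) *
      ee (s * el p ((i.succ : Fin (A + 1)) : ℕ) + t * el p ((0 : Fin (A + 1)) : ℕ)) =
      (al p A ((i : ℕ) + 1) : ℂ) * ee (s / (p : ℝ) ^ ((i : ℕ) + 1)) := by
    intro i
    unfold nu
    rw [if_neg (show ¬ ((i.succ, (0 : Fin (A + 1))).1 : ℕ) = 0 by simp),
      if_pos (show ((i.succ, (0 : Fin (A + 1))).2 : ℕ) = 0 from rfl)]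
    simp only [Fin.val_zero, Fin.val_succ, el_zero, el_succ, mul_zero, add_zero, mul_one_div]
  have e3 : ∀ i j : Fin A, nu p A (i.succ, j.succ) = 0 := by
    intro i j
    unfold nu
    rw [if_neg (show ¬ ((i.succ, j.succ).1 : ℕ) = 0 by simp),
      if_neg (show ¬ ((i.succ, j.succ).2 : ℕ) = 0 by simp)]
  have e4 : (nu p A ((0 : Fin (A + 1)), (0 : Fin (A + 1))) : ℂ) *
      ee (s * el p ((0 : Fin (A + 1)) : ℕ) + t * el p ((0 : Fin (A + 1)) : ℕ)) =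
      (1 - 1 / (p : ℂ)) ^ 2 := by
    unfold nu
    rw [if_pos (show (((0 : Fin (A + 1)), (0 : Fin (A + 1))).1 : ℕ) = 0 from rfl)]
    simp only [Fin.val_zero, el_zero, mul_zero, add_zero, ee_zero, mul_one, h0]
    push_cast
    ring
  have e0 : cfT p A s t = ∑ i : Fin (A + 1), ∑ j : Fin (A + 1), (nu p A (i, j) : ℂ) *
      ee (s * el p (i : ℕ) + t * el p (j : ℕ)) := by
    unfold cfT
    rw [Fintype.sum_prod_type]
    rfl
  rw [e0, Fin.sum_univ_succ, Fin.sum_univ_succ, e4, Finset.sum_congr rfl fun j _ => e1 j]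
  have e5 : ∀ i : Fin A, ∑ j : Fin (A + 1), (nu p A (i.succ, j) : ℂ) *
      ee (s * el p ((i.succ : Fin (A + 1)) : ℕ) + t * el p (j : ℕ)) =
      (al p A ((i : ℕ) + 1) : ℂ) * ee (s / (p : ℝ) ^ ((i : ℕ) + 1)) := by
    intro i
    rw [Fin.sum_univ_succ, e2 i]
    have : ∑ j : Fin A, (nu p A (i.succ, j.succ) : ℂ) *
        ee (s * el p ((i.succ : Fin (A + 1)) : ℕ) + t * el p ((j.succ : Fin (A + 1)) : ℕ)) = 0 := by
      refine Finset.sum_eq_zero fun j _ => ?_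
      rw [e3 i j, Complex.ofReal_zero, zero_mul]
    rw [this, add_zero]
  rw [Finset.sum_congr rfl fun i _ => e5 i, add_assoc]
  congr 1
  rw [← Finset.sum_add_distrib, Finset.sum_range]
  refine Finset.sum_congr rfl fun i _ => ?_
  unfold gf
  ring

private theorem gf_eq_ff (p A : ℕ) (s t : ℝ) {k : ℕ} (hk : k + 1 < A) :
    gf p A s t k = ff p s t k := by
  unfold gf ff
  have h0 : (al p A (k + 1) : ℂ) = (1 - 1 / (p : ℂ)) / (p : ℂ) ^ (k + 1) := by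
    unfold al
    rw [if_pos hk]
    push_cast
    rfl
  rw [h0]
  ring

private theorem inv_pow_le {p : ℕ} (hp : 2 ≤ p) (k : ℕ) :
    ‖((p : ℂ) ^ k)⁻¹‖ ≤ ((1 : ℝ) / 2) ^ k := by
  have h2 : (2 : ℝ) ≤ p := by exact_mod_cast hp
  rw [norm_inv, norm_pow, Complex.norm_natCast, ← inv_pow, one_div]
  refine pow_le_pow_left₀ (by positivity) ?_ k
  exact inv_anti₀ (by norm_num) h2

private theorem one_sub_le {p : ℕ} (hp : 2 ≤ p) : ‖(1 - 1 / (p : ℂ))‖ ≤ 1 := by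
  have h2 : (2 : ℝ) ≤ p := by exact_mod_cast hp
  have h3 : (1 - 1 / (p : ℂ)) = ((1 - 1 / (p : ℝ) : ℝ) : ℂ) := by push_cast; rfl
  have h4 : 1 / (p : ℝ) ≤ 1 := by
    rw [div_le_one (by linarith)]
    linarith
  have h5 : 0 ≤ 1 / (p : ℝ) := by positivity
  rw [h3, Complex.norm_real, Real.norm_eq_abs, abs_le]
  constructor <;> linarith

private theorem ff_le {p : ℕ} (hp : 2 ≤ p) (s t : ℝ) (k : ℕ) :
    ‖ff p s t k‖ ≤ ((1 : ℝ) / 2) ^ k := by
  unfold ff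
  have h1 := one_sub_le hp
  have h2 : ‖(1 - 1 / (p : ℂ)) * ee (s / (p : ℝ) ^ (k + 1)) +
      (1 - 1 / (p : ℂ)) ^ 2 * ee (t / (p : ℝ) ^ (k + 1))‖ ≤ 2 := by
    refine (norm_add_le _ _).trans ?_
    rw [norm_mul, norm_mul, ee_norm, ee_norm, mul_one, mul_one, norm_pow]
    have h3 := pow_le_one₀ (n := 2) (norm_nonneg (1 - 1 / (p : ℂ))) h1
    linarith
  rw [div_eq_mul_inv, norm_mul]
  calc _ ≤ 2 * ((1 : ℝ) / 2) ^ (k + 1) :=
        mul_le_mul h2 (inv_pow_le hp (k + 1)) (norm_nonneg _) (by norm_num)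
    _ = ((1 : ℝ) / 2) ^ k := by
        rw [pow_succ]
        ring

private theorem gf_last {p : ℕ} (hp : 2 ≤ p) (B : ℕ) (s t : ℝ) :
    ‖gf p (B + 1) s t B‖ ≤ 2 * ((1 : ℝ) / 2) ^ (B + 1) := by
  unfold gf
  have h0 : (al p (B + 1) (B + 1) : ℂ) = ((p : ℂ) ^ (B + 1))⁻¹ := by
    unfold al
    rw [if_neg (lt_irrefl _)]
    push_cast
    rw [one_div]
  rw [h0]
  have h1 := one_sub_le hp
  have h2 := inv_pow_le hp (B + 1)
  refine (norm_add_le _ _).trans ?_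
  rw [norm_mul, norm_mul, norm_mul, ee_norm, ee_norm, mul_one, mul_one]
  have h3 := mul_le_mul h1 h2 (norm_nonneg _) zero_le_one
  linarith

theorem cfT_sub (p A : ℕ) (hp : 2 ≤ p) (hA : 1 ≤ A) (s t : ℝ) :
    ‖cfT p A s t - cf p s t‖ ≤ 6 / 2 ^ A := by
  obtain ⟨B, rfl⟩ : ∃ B, A = B + 1 := ⟨A - 1, by omega⟩
  have hgeo : HasSum (fun k : ℕ => ((1 : ℝ) / 2) ^ k) 2 := by
    have := hasSum_geometric_of_lt_one (r := (1 : ℝ) / 2) (by norm_num) (by norm_num)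
    convert this using 1
    norm_num
  have hs : Summable (ff p s t) :=
    Summable.of_norm_bounded (g := fun k : ℕ => ((1 : ℝ) / 2) ^ k) hgeo.summable
      fun k => ff_le hp s t k
  have htail : ‖∑' k : ℕ, ff p s t (k + (B + 1))‖ ≤ 2 * ((1 : ℝ) / 2) ^ (B + 1) := by
    refine tsum_of_norm_bounded (hgeo.mul_right (((1 : ℝ) / 2) ^ (B + 1))) fun k => ?_
    rw [← pow_add]
    exact ff_le hp s t _
  have hsplit := hs.sum_add_tsum_nat_add (B + 1)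
  have hsum : ∑ k ∈ range (B + 1), gf p (B + 1) s t k =
      ∑ k ∈ range (B + 1), ff p s t k + (gf p (B + 1) s t B - ff p s t B) := by
    rw [Finset.sum_range_succ, Finset.sum_range_succ,
      Finset.sum_congr rfl fun k hk => gf_eq_ff p (B + 1) s t
        (show k + 1 < B + 1 by have := Finset.mem_range.1 hk; omega)]
    ring
  have e : cfT p (B + 1) s t - cf p s t =
      (gf p (B + 1) s t B - ff p s t B) - ∑' k : ℕ, ff p s t (k + (B + 1)) := by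
    rw [cfT_gf p (B + 1) hA, cf_ff, hsum, ← hsplit]
    ring
  rw [e]
  have h1 := ff_le hp s t B
  have h2 := gf_last hp B s t
  have h3 : ‖(gf p (B + 1) s t B - ff p s t B) - ∑' k : ℕ, ff p s t (k + (B + 1))‖ ≤
      (‖gf p (B + 1) s t B‖ + ‖ff p s t B‖) + ‖∑' k : ℕ, ff p s t (k + (B + 1))‖ :=
    (norm_sub_le _ _).trans (add_le_add (norm_sub_le _ _) le_rfl)
  have h4 : ((1 : ℝ) / 2) ^ B = 2 * ((1 : ℝ) / 2) ^ (B + 1) := by
    rw [pow_succ]
    ring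
  have h5 : (6 : ℝ) / 2 ^ (B + 1) = 6 * ((1 : ℝ) / 2) ^ (B + 1) := by
    rw [one_div, inv_pow, div_eq_mul_inv]
  rw [h5]
  rw [h4] at h1
  linarith

end Pool.Agent.H31.JL
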