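import Pool.Agent.H31.JL.CFLoc

/-!
# JL CFProd: sum over patterns as a product over the primes, and its limit

`pat_prod`: `exp` of a sum over `p : DD.Pz z` is a product, `wt` is a product: `Finset.prod_univ_sum` with
`Fintype.piFinset_univ`; then `Finset.prod_coe_sort`.
`cf_lim`: `‖cfT p z s t‖ ≤ 1` (`nu_nonneg`, `nu_sum`), `‖cf p s t‖ ≤ 1` (limit of the `cfT p A s t` as `A → ∞` by `cfT_sub`),
so `‖∏ cfT - ∏ cf‖ ≤ ∑ ‖cfT - cf‖ ≤ (z + 1) * 6 / 2 ^ z → 0` (induction over the finset).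
-/

set_option autoImplicit false

namespace Pool.Agent.H31.JL

open Finset Filter Topology
open Pool.Agent.H31.TL

theorem pat_prod (z A : ℕ) (s t : ℝ) :
    ∑ q : ((p : DD.Pz z) → St A), (wt z A q : ℂ) *
      Complex.exp (((s * XX z A q + t * YY z A q : ℝ) : ℂ) * Complex.I) =
      ∏ p ∈ DD.Pz z, cfT p A s t := by
  have h1 : ∏ p ∈ DD.Pz z, cfT p A s t = ∏ p : DD.Pz z, cfT (p : ℕ) A s t :=
    (Finset.prod_coe_sort (DD.Pz z) (fun p => cfT p A s t)).symm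
  rw [h1]
  unfold cfT
  rw [Finset.prod_univ_sum, Fintype.piFinset_univ]
  refine sum_congr rfl fun q _ => ?_
  rw [Finset.prod_mul_distrib, ← Complex.exp_sum]
  congr 1
  · unfold wt
    push_cast
    rfl
  · congr 1
    unfold XX YY
    rw [← sum_mul]
    congr 1
    push_cast
    rw [mul_sum, mul_sum, ← sum_add_distrib]

private theorem cfT_le (p A : ℕ) (hp : 2 ≤ p) (hA : 1 ≤ A) (s t : ℝ) : ‖cfT p A s t‖ ≤ 1 := by
  unfold cfT
  refine (norm_sum_le _ _).trans ?_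
  rw [← nu_sum p A hp hA]
  refine sum_le_sum fun a _ => ?_
  rw [norm_mul, Complex.norm_exp_ofReal_mul_I, mul_one, Complex.norm_real,
    Real.norm_of_nonneg (nu_nonneg p A hp a)]

private theorem cfprod_half : Tendsto (fun A : ℕ => (6 : ℝ) / 2 ^ A) atTop (𝓝 0) := by
  have h1 : Tendsto (fun A : ℕ => (6 : ℝ) * (1 / 2) ^ A) atTop (𝓝 (6 * 0)) :=
    (tendsto_pow_atTop_nhds_zero_of_lt_one (by norm_num) (by norm_num)).const_mul 6
  rw [mul_zero] at h1
  refine h1.congr fun A => ?_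
  rw [one_div, inv_pow, div_eq_mul_inv]

private theorem cf_le (p : ℕ) (hp : 2 ≤ p) (s t : ℝ) : ‖cf p s t‖ ≤ 1 := by
  have h2 : Tendsto (fun A : ℕ => 1 + (6 : ℝ) / 2 ^ A) atTop (𝓝 (1 + 0)) :=
    cfprod_half.const_add 1
  rw [add_zero] at h2
  refine ge_of_tendsto h2 ?_
  filter_upwards [eventually_ge_atTop 1] with A hA
  have h3 := cfT_sub p A hp hA s t
  have h4 := cfT_le p A hp hA s t
  have h5 : cf p s t = cfT p A s t - (cfT p A s t - cf p s t) := by ring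
  rw [h5]
  exact (norm_sub_le _ _).trans (add_le_add h4 h3)

private theorem cfprod_diff (S : Finset ℕ) (f g : ℕ → ℂ) (e : ℝ)
    (hf : ∀ p ∈ S, ‖f p‖ ≤ 1) (hg : ∀ p ∈ S, ‖g p‖ ≤ 1) (h : ∀ p ∈ S, ‖f p - g p‖ ≤ e) :
    ‖∏ p ∈ S, f p - ∏ p ∈ S, g p‖ ≤ S.card * e := by
  classical
  induction S using Finset.induction_on with
  | empty => simp
  | insert a S ha ih =>
    have ih' := ih (fun p hp => hf p (mem_insert_of_mem hp))
      (fun p hp => hg p (mem_insert_of_mem hp)) (fun p hp => h p (mem_insert_of_mem hp))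
    rw [prod_insert ha, prod_insert ha, card_insert_of_notMem ha]
    have h1 : f a * ∏ p ∈ S, f p - g a * ∏ p ∈ S, g p =
        (f a - g a) * ∏ p ∈ S, f p + g a * (∏ p ∈ S, f p - ∏ p ∈ S, g p) := by ring
    have h2 : ‖∏ p ∈ S, f p‖ ≤ 1 := by
      rw [norm_prod]
      exact prod_le_one (fun _ _ => norm_nonneg _) fun p hp => hf p (mem_insert_of_mem hp)
    have h3 := h a (mem_insert_self _ _)
    have h4 := hg a (mem_insert_self _ _)
    rw [h1]
    refine (norm_add_le _ _).trans ?_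
    rw [norm_mul, norm_mul]
    have h5 : ‖f a - g a‖ * ‖∏ p ∈ S, f p‖ ≤ e * 1 :=
      mul_le_mul h3 h2 (norm_nonneg _) ((norm_nonneg _).trans h3)
    have h6 : ‖g a‖ * ‖∏ p ∈ S, f p - ∏ p ∈ S, g p‖ ≤ 1 * (S.card * e) :=
      mul_le_mul h4 ih' (norm_nonneg _) zero_le_one
    push_cast
    linarith

theorem cf_lim (s t : ℝ) :
    Tendsto (fun z : ℕ => ∏ p ∈ DD.Pz z, cfT p z s t - ∏ p ∈ DD.Pz z, cf p s t) atTop (𝓝 0) := by
  have h1 : Tendsto (fun z : ℕ => 6 * ((z : ℝ) * (1 / 2) ^ z) + 6 * (1 / 2 : ℝ) ^ z) atTop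
      (𝓝 (6 * 0 + 6 * 0)) :=
    ((tendsto_self_mul_const_pow_of_lt_one (by norm_num) (by norm_num)).const_mul 6).add
      ((tendsto_pow_atTop_nhds_zero_of_lt_one (by norm_num) (by norm_num)).const_mul 6)
  rw [mul_zero, add_zero] at h1
  refine squeeze_zero_norm' ?_ h1
  filter_upwards [eventually_ge_atTop 1] with z hz
  have hp2 : ∀ p ∈ DD.Pz z, 2 ≤ p := by
    intro p hp
    unfold DD.Pz at hp
    exact (mem_filter.1 hp).2.two_le
  have h2 := cfprod_diff (DD.Pz z) (fun p => cfT p z s t) (fun p => cf p s t) (6 / 2 ^ z)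
    (fun p hp => cfT_le p z (hp2 p hp) hz s t) (fun p hp => cf_le p (hp2 p hp) s t)
    (fun p hp => cfT_sub p z (hp2 p hp) hz s t)
  refine h2.trans ?_
  have h3 : ((DD.Pz z).card : ℝ) ≤ (z : ℝ) + 1 := by
    have h4 : (DD.Pz z).card ≤ z + 1 := by
      unfold DD.Pz
      exact (card_filter_le _ _).trans (card_range _).le
    exact_mod_cast h4
  calc ((DD.Pz z).card : ℝ) * (6 / 2 ^ z) ≤ ((z : ℝ) + 1) * (6 / 2 ^ z) :=
        mul_le_mul_of_nonneg_right h3 (by positivity)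
    _ = 6 * ((z : ℝ) * (1 / 2) ^ z) + 6 * (1 / 2 : ℝ) ^ z := by
        rw [one_div, inv_pow]
        ring

end Pool.Agent.H31.JL
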