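import Pool.Agent.H31.TL.Low

/-!
# JL Conc3: the laws of `X` and of `Y` have no mass near a point, uniformly in the point

`conc_aux`: exchange of the state `(0, 0)` of a prime `p ≤ z2` for `a1`, which changes `Z` by `1 / p` and the weight
by a factor at least `1 / p` (`pm_exch`); the images of the patterns with `|Z - t| ≤ 1 / (4 M²)` are disjoint for
different primes. `conc3`: `a1 = (1, 0)`, `Z = X` and `a1 = (0, 1)`, `Z = Y`.
-/

set_option autoImplicit false

namespace Pool.Agent.H31.JL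

open Finset
open Pool.Agent.H31.TL

/-- the sums of the reciprocals of the primes up to `n` are unbounded -/
private theorem exists_big (C : ℝ) (z1 : ℕ) : ∃ z2 : ℕ, z1 ≤ z2 ∧
    C ≤ ∑ p ∈ DD.Pz z2, 1 / (p : ℝ) := by
  have h := not_summable_one_div_on_primes
  have hnn : ∀ n : ℕ, 0 ≤ Set.indicator {p : ℕ | p.Prime} (fun n : ℕ => (1 : ℝ) / n) n := by
    intro n
    apply Set.indicator_nonneg
    intro x _
    positivity
  have h2 := (not_summable_iff_tendsto_nat_atTop_of_nonneg hnn).mp h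
  obtain ⟨N, hN⟩ := (h2.eventually_ge_atTop C).exists_forall_of_atTop
  refine ⟨max z1 N, le_max_left _ _, ?_⟩
  have h3 := hN (max z1 N + 1) (by omega)
  refine h3.trans (le_of_eq ?_)
  unfold DD.Pz
  rw [sum_filter]
  apply sum_congr rfl
  intro p _
  rw [Set.indicator_apply]
  rfl

private theorem el_zero (p : ℕ) : el p 0 = 0 := by
  unfold el
  simp

private theorem el_one (p : ℕ) : el p 1 = 1 / (p : ℝ) := by
  unfold el
  simp

private theorem val_one {A : ℕ} (hA : 2 ≤ A) : ((1 : Fin (A + 1)) : ℕ) = 1 := by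
  rw [Fin.val_one']
  exact Nat.mod_eq_of_lt (by omega)

private theorem XX_update {z A : ℕ} (hA : 2 ≤ A) (s : (p : DD.Pz z) → St A) (i : DD.Pz z)
    (hi : s i = (0, 0)) :
    XX z A (Function.update s i (1, 0)) = XX z A s + 1 / ((i : ℕ) : ℝ) := by
  unfold XX
  rw [← Finset.add_sum_erase univ _ (mem_univ i), ← Finset.add_sum_erase univ
    (fun p : DD.Pz z => el (p : ℕ) ((s p).1 : ℕ)) (mem_univ i)]
  have h1 : ∑ p ∈ univ.erase i, el (p : ℕ) ((Function.update s i ((1, 0) : St A) p).1 : ℕ) =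
      ∑ p ∈ univ.erase i, el (p : ℕ) ((s p).1 : ℕ) := by
    apply sum_congr rfl
    intro p hp
    rw [Function.update_of_ne (ne_of_mem_erase hp)]
  rw [h1, Function.update_self, hi]
  have h2 : el (i : ℕ) (((1, 0) : St A).1 : ℕ) = 1 / ((i : ℕ) : ℝ) := by
    show el (i : ℕ) ((1 : Fin (A + 1)) : ℕ) = _
    rw [val_one hA, el_one]
  have h3 : el (i : ℕ) (((0, 0) : St A).1 : ℕ) = 0 := by
    show el (i : ℕ) ((0 : Fin (A + 1)) : ℕ) = _
    rw [Fin.val_zero, el_zero]
  rw [h2, h3]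
  ring

private theorem recip_sep {a b m : ℕ} (ha : 1 ≤ a) (hb : 1 ≤ b) (hab : a ≠ b) (ham : a ≤ m)
    (hbm : b ≤ m) : 1 / (m : ℝ) ^ 2 ≤ |1 / (a : ℝ) - 1 / (b : ℝ)| := by
  have ha' : (0 : ℝ) < a := by exact_mod_cast ha
  have hb' : (0 : ℝ) < b := by exact_mod_cast hb
  have hm' : (0 : ℝ) < m := by exact_mod_cast (by omega : 0 < m)
  have h1 : 1 / (a : ℝ) - 1 / (b : ℝ) = ((b : ℝ) - a) / (a * b) := by
    field_simp
  rw [h1, abs_div, abs_of_pos (mul_pos ha' hb')]
  have h2 : (1 : ℝ) ≤ |(b : ℝ) - a| := by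
    have h3 : (1 : ℤ) ≤ |(b : ℤ) - a| := Int.one_le_abs (by omega)
    exact_mod_cast h3
  have h4 : (a : ℝ) * b ≤ (m : ℝ) ^ 2 := by
    have h5 : (a : ℝ) ≤ m := by exact_mod_cast ham
    have h6 : (b : ℝ) ≤ m := by exact_mod_cast hbm
    nlinarith
  exact div_le_div₀ (abs_nonneg _) h2 (mul_pos ha' hb') h4

private theorem nu_ratio {p A : ℕ} (hp : 2 ≤ p) (hA : 2 ≤ A) :
    1 / (p : ℝ) * nu p A (0, 0) ≤ nu p A (1, 0) := by
  have hp' : (2 : ℝ) ≤ p := by exact_mod_cast hp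
  have hp0 : (0 : ℝ) < p := by linarith
  have h1 : nu p A (0, 0) = (1 - 1 / (p : ℝ)) * (1 - 1 / (p : ℝ)) := by
    unfold nu al
    simp [show 0 < A by omega]
  have h2 : nu p A (1, 0) = (1 - 1 / (p : ℝ)) / p := by
    have h3 : ((1 : Fin (A + 1)) : ℕ) = 1 := val_one hA
    unfold nu
    have h4 : ¬ ((((1 : Fin (A + 1)), (0 : Fin (A + 1))) : St A).1 : ℕ) = 0 := by
      show ¬ ((1 : Fin (A + 1)) : ℕ) = 0
      rw [h3]
      omega
    rw [if_neg h4]
    have h5 : ((((1 : Fin (A + 1)), (0 : Fin (A + 1))) : St A).2 : ℕ) = 0 := by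
      show ((0 : Fin (A + 1)) : ℕ) = 0
      exact Fin.val_zero _
    rw [if_pos h5]
    show al p A ((1 : Fin (A + 1)) : ℕ) = _
    rw [h3]
    unfold al
    rw [if_pos (by omega), pow_one]
  rw [h1, h2]
  have h6 : (0 : ℝ) ≤ 1 / (p : ℝ) := by positivity
  have h7 : 1 / (p : ℝ) ≤ 1 := by
    rw [div_le_one hp0]
    linarith
  rw [div_eq_mul_one_div (1 - 1 / (p : ℝ)) (p : ℝ)]
  have h8 : 0 ≤ 1 / (p : ℝ) * (1 - 1 / (p : ℝ)) := mul_nonneg h6 (by linarith)
  nlinarith [mul_nonneg h8 h6]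

private theorem YY_update {z A : ℕ} (s : (p : DD.Pz z) → St A) (i : DD.Pz z)
    (hi : s i = (0, 0)) :
    YY z A (Function.update s i (1, 0)) = YY z A s := by
  unfold YY
  apply sum_congr rfl
  intro p _
  by_cases hp : p = i
  · subst hp
    rw [Function.update_self, hi]
  · rw [Function.update_of_ne hp]

private theorem XX_update2 {z A : ℕ} (s : (p : DD.Pz z) → St A) (i : DD.Pz z)
    (hi : s i = (0, 0)) :
    XX z A (Function.update s i (0, 1)) = XX z A s := by
  unfold XX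
  apply sum_congr rfl
  intro p _
  by_cases hp : p = i
  · subst hp
    rw [Function.update_self, hi]
  · rw [Function.update_of_ne hp]

private theorem YY_update' {z A : ℕ} (hA : 2 ≤ A) (s : (p : DD.Pz z) → St A) (i : DD.Pz z)
    (hi : s i = (0, 0)) :
    YY z A (Function.update s i (0, 1)) = YY z A s + 1 / ((i : ℕ) : ℝ) := by
  unfold YY
  rw [← Finset.add_sum_erase univ _ (mem_univ i), ← Finset.add_sum_erase univ
    (fun p : DD.Pz z => el (p : ℕ) ((s p).2 : ℕ)) (mem_univ i)]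
  have h1 : ∑ p ∈ univ.erase i, el (p : ℕ) ((Function.update s i ((0, 1) : St A) p).2 : ℕ) =
      ∑ p ∈ univ.erase i, el (p : ℕ) ((s p).2 : ℕ) := by
    apply sum_congr rfl
    intro p hp
    rw [Function.update_of_ne (ne_of_mem_erase hp)]
  rw [h1, Function.update_self, hi]
  have h2 : el (i : ℕ) (((0, 1) : St A).2 : ℕ) = 1 / ((i : ℕ) : ℝ) := by
    show el (i : ℕ) ((1 : Fin (A + 1)) : ℕ) = _
    rw [val_one hA, el_one]
  have h3 : el (i : ℕ) (((0, 0) : St A).2 : ℕ) = 0 := by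
    show el (i : ℕ) ((0 : Fin (A + 1)) : ℕ) = _
    rw [Fin.val_zero, el_zero]
  rw [h2, h3]
  ring

private theorem nu_ratio' {p A : ℕ} (_hp : 2 ≤ p) (hA : 2 ≤ A) :
    1 / (p : ℝ) * nu p A (0, 0) ≤ nu p A (0, 1) := by
  have h1 : nu p A (0, 0) = (1 - 1 / (p : ℝ)) * (1 - 1 / (p : ℝ)) := by
    unfold nu al
    simp [show 0 < A by omega]
  have h2 : nu p A (0, 1) = (1 - 1 / (p : ℝ)) * ((1 - 1 / (p : ℝ)) / p) := by
    unfold nu
    have h4 : ((((0 : Fin (A + 1)), (1 : Fin (A + 1))) : St A).1 : ℕ) = 0 := by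
      show ((0 : Fin (A + 1)) : ℕ) = 0
      exact Fin.val_zero _
    rw [if_pos h4]
    show (1 - 1 / (p : ℝ)) * al p A ((1 : Fin (A + 1)) : ℕ) = _
    rw [val_one hA]
    unfold al
    rw [if_pos (by omega), pow_one]
  rw [h1, h2]
  apply le_of_eq
  ring

open Classical in
private theorem conc_aux (η : ℝ) (hη : 0 < η) : ∃ (z2 : ℕ) (ε : ℝ), 0 < ε ∧ ∀ z A : ℕ, z2 ≤ z →
    2 ≤ A → ∀ (a1 : St A) (Z : ((p : DD.Pz z) → St A) → ℝ) (t : ℝ), ((0, 0) : St A) ≠ a1 →
    (∀ p : ℕ, 2 ≤ p → 1 / (p : ℝ) * nu p A (0, 0) ≤ nu p A a1) →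
    (∀ (s : (p : DD.Pz z) → St A) (i : DD.Pz z), s i = (0, 0) →
      Z (Function.update s i a1) = Z s + 1 / ((i : ℕ) : ℝ)) →
    ∑ s ∈ univ.filter (fun s : (p : DD.Pz z) → St A => |Z s - t| ≤ ε), wt z A s ≤ η := by
  obtain ⟨K, hK0, hmany⟩ := many (η / 2) (by positivity)
  obtain ⟨z2, -, hz2⟩ := exists_big (K + 2 / η) 0
  set M : ℕ := z2 + 1 with hM
  have hMpos : (0 : ℝ) < M := by
    rw [hM]
    positivity
  refine ⟨z2, 1 / (4 * (M : ℝ) ^ 2), by positivity, ?_⟩
  intro z A hz hA a1 Z t ha1 hra hup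
  set ε : ℝ := 1 / (4 * (M : ℝ) ^ 2) with hε
  have hwt : ∀ s : (p : DD.Pz z) → St A, 0 ≤ wt z A s := by
    intro s
    unfold wt
    apply prod_nonneg
    intro p _
    exact nu_nonneg _ _ (DD.mem_Pz.mp p.2).2.two_le _
  set S : Finset ((p : DD.Pz z) → St A) := univ.filter (fun s : (p : DD.Pz z) → St A =>
    |Z s - t| ≤ ε ∧
      ∑ p ∈ univ.filter (fun p : DD.Pz z => s p ≠ (0, 0)), 1 / ((p : ℕ) : ℝ) ≤ K) with hS
  have hexch : 2 / η * ∑ s ∈ S, wt z A s ≤ 1 := by
    have h := pm_exch (ι := DD.Pz z) (α := St A) (fun p s => nu (p : ℕ) A s)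
      (fun p s => nu_nonneg _ _ (DD.mem_Pz.mp p.2).2.two_le _)
      (fun p => nu_sum _ _ (DD.mem_Pz.mp p.2).2.two_le (by omega))
      (univ.filter (fun p : DD.Pz z => (p : ℕ) ≤ z2)) (0, 0) a1 ha1
      (fun p => 1 / ((p : ℕ) : ℝ)) (fun p => by positivity)
      (fun p _ => hra _ (DD.mem_Pz.mp p.2).2.two_le) S (2 / η)
      (by
        intro s hs
        rw [hS, mem_filter] at hs
        obtain ⟨_, _, h3⟩ := hs
        have h4 : ∑ p ∈ univ.filter (fun p : DD.Pz z => (p : ℕ) ≤ z2), 1 / ((p : ℕ) : ℝ) =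
            ∑ p ∈ DD.Pz z2, 1 / (p : ℝ) := by
          refine sum_bij (fun p _ => (p : ℕ)) ?_ ?_ ?_ ?_
          · intro p hp
            rw [mem_filter] at hp
            exact DD.mem_Pz.mpr ⟨hp.2, (DD.mem_Pz.mp p.2).2⟩
          · intro p _ q _ hpq
            exact Subtype.ext hpq
          · intro p hp
            have hp' := DD.mem_Pz.mp hp
            refine ⟨⟨p, DD.mem_Pz.mpr ⟨hp'.1.trans hz, hp'.2⟩⟩, ?_, rfl⟩
            rw [mem_filter]
            exact ⟨mem_univ _, hp'.1⟩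
          · intro p _
            rfl
        have h5 := sum_filter_add_sum_filter_not
          (univ.filter (fun p : DD.Pz z => (p : ℕ) ≤ z2)) (fun p : DD.Pz z => s p = (0, 0))
          (fun p : DD.Pz z => 1 / ((p : ℕ) : ℝ))
        have h6 : ∑ p ∈ (univ.filter (fun p : DD.Pz z => (p : ℕ) ≤ z2)).filter
            (fun p : DD.Pz z => ¬ s p = (0, 0)), 1 / ((p : ℕ) : ℝ) ≤ K := by
          refine le_trans ?_ h3
          apply sum_le_sum_of_subset_of_nonneg
          · intro p hp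
            rw [mem_filter] at hp ⊢
            exact ⟨mem_univ _, hp.2⟩
          · intro p _ _
            positivity
        have h7 : 2 / η ≤ ∑ p ∈ (univ.filter (fun p : DD.Pz z => (p : ℕ) ≤ z2)).filter
            (fun p : DD.Pz z => s p = (0, 0)), 1 / ((p : ℕ) : ℝ) := by
          linarith
        convert h7 using 2)
      (by
        intro i hi j hj hij s hs t' ht' hsi htj heq
        rw [hS, mem_filter] at hs ht'
        obtain ⟨_, hs1, _⟩ := hs
        obtain ⟨_, ht1, _⟩ := ht'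
        rw [mem_filter] at hi hj
        have hX := congrArg Z heq
        rw [hup s i hsi, hup t' j htj] at hX
        have hi2 := (DD.mem_Pz.mp i.2).2.two_le
        have hj2 := (DD.mem_Pz.mp j.2).2.two_le
        have hne : (i : ℕ) ≠ (j : ℕ) := fun h => hij (Subtype.ext h)
        have hsep := recip_sep (a := (i : ℕ)) (b := (j : ℕ)) (m := M) (by omega) (by omega) hne
          (by have := hi.2; omega) (by have := hj.2; omega)
        have hdiff : (Z t' - t) - (Z s - t) = 1 / ((i : ℕ) : ℝ) - 1 / ((j : ℕ) : ℝ) := by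
          linarith
        rw [← hdiff] at hsep
        have h2 := abs_sub (Z t' - t) (Z s - t)
        have h4 : 2 * ε < 1 / (M : ℝ) ^ 2 := by
          rw [hε]
          have h5 : 2 * (1 / (4 * (M : ℝ) ^ 2)) = (1 / (M : ℝ) ^ 2) / 2 := by
            field_simp
            ring
          rw [h5]
          have h6 : 0 < 1 / (M : ℝ) ^ 2 := by positivity
          linarith
        linarith)
    exact h
  have hSle : ∑ s ∈ S, wt z A s ≤ η / 2 := by
    have h1 : 2 / η * ∑ s ∈ S, wt z A s ≤ 2 / η * (η / 2) := by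
      have h2 : 2 / η * (η / 2) = 1 := by
        field_simp
      rw [h2]
      exact hexch
    exact le_of_mul_le_mul_left h1 (by positivity)
  have hsub : univ.filter (fun s : (p : DD.Pz z) → St A => |Z s - t| ≤ ε) ⊆
      univ.filter (fun s : (p : DD.Pz z) → St A =>
          K < ∑ p ∈ univ.filter (fun p : DD.Pz z => s p ≠ (0, 0)), 1 / ((p : ℕ) : ℝ)) ∪ S := by
    intro s hs
    rw [mem_filter] at hs
    rw [mem_union, mem_filter, hS, mem_filter]
    by_cases h2 : K < ∑ p ∈ univ.filter (fun p : DD.Pz z => s p ≠ (0, 0)), 1 / ((p : ℕ) : ℝ)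
    · exact Or.inl ⟨mem_univ _, h2⟩
    · exact Or.inr ⟨mem_univ _, hs.2, not_lt.mp h2⟩
  have hun : ∀ U V : Finset ((p : DD.Pz z) → St A),
      ∑ s ∈ U ∪ V, wt z A s ≤ ∑ s ∈ U, wt z A s + ∑ s ∈ V, wt z A s := by
    intro U V
    rw [← sum_union_inter]
    have : 0 ≤ ∑ s ∈ U ∩ V, wt z A s := sum_nonneg (fun s _ => hwt s)
    linarith
  have hA2 := hmany z A hA
  calc ∑ s ∈ univ.filter (fun s : (p : DD.Pz z) → St A => |Z s - t| ≤ ε), wt z A s
      ≤ ∑ s ∈ univ.filter (fun s : (p : DD.Pz z) → St A =>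
          K < ∑ p ∈ univ.filter (fun p : DD.Pz z => s p ≠ (0, 0)), 1 / ((p : ℕ) : ℝ)) ∪ S,
          wt z A s := sum_le_sum_of_subset_of_nonneg hsub (fun s _ _ => hwt s)
    _ ≤ η / 2 + η / 2 := (hun _ _).trans (add_le_add hA2 hSle)
    _ = η := by ring

open Classical in
theorem conc3 (η : ℝ) (hη : 0 < η) : ∃ (z2 : ℕ) (ε : ℝ), 0 < ε ∧ ∀ z A : ℕ, z2 ≤ z → 2 ≤ A →
    ∀ t : ℝ, ∑ s ∈ univ.filter (fun s : (p : DD.Pz z) → St A => |XX z A s - t| ≤ ε), wt z A s ≤ η ∧
      ∑ s ∈ univ.filter (fun s : (p : DD.Pz z) → St A => |YY z A s - t| ≤ ε), wt z A s ≤ η := by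
  obtain ⟨z2, ε, hε, h⟩ := conc_aux η hη
  refine ⟨z2, ε, hε, fun z A hz hA t => ⟨?_, ?_⟩⟩
  · refine h z A hz hA (1, 0) (XX z A) t ?_ (fun p hp => nu_ratio hp hA)
      (fun s i hi => XX_update hA s i hi)
    intro h
    have h1 := congrArg (fun x : St A => (x.1 : ℕ)) h
    simp only [Fin.val_zero] at h1
    rw [val_one hA] at h1
    omega
  · refine h z A hz hA (0, 1) (YY z A) t ?_ (fun p hp => nu_ratio' hp hA)
      (fun s i hi => YY_update' hA s i hi)
    intro h
    have h1 := congrArg (fun x : St A => (x.2 : ℕ)) h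
    simp only [Fin.val_zero] at h1
    rw [val_one hA] at h1
    omega

open Classical in
/-- The law of `X` given `Y` has no mass near a point, and the law of `Y` given `X` has no mass near a point. -/
theorem conc4 (η : ℝ) (hη : 0 < η) : ∃ (z2 : ℕ) (ε : ℝ), 0 < ε ∧ ∀ z A : ℕ, z2 ≤ z → 2 ≤ A →
    ∀ f : ℝ → ℝ,
      ∑ s ∈ univ.filter (fun s : (p : DD.Pz z) → St A => |XX z A s - f (YY z A s)| ≤ ε), wt z A s ≤ η ∧
      ∑ s ∈ univ.filter (fun s : (p : DD.Pz z) → St A => |YY z A s - f (XX z A s)| ≤ ε), wt z A s ≤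
        η := by
  obtain ⟨z2, ε, hε, h⟩ := conc_aux η hη
  refine ⟨z2, ε, hε, fun z A hz hA f => ⟨?_, ?_⟩⟩
  · have h1 := h z A hz hA (1, 0) (fun s => XX z A s - f (YY z A s)) 0 (by
      intro h
      have h1 := congrArg (fun x : St A => (x.1 : ℕ)) h
      simp only [Fin.val_zero] at h1
      rw [val_one hA] at h1
      omega) (fun p hp => nu_ratio hp hA) (fun s i hi => by
        rw [XX_update hA s i hi, YY_update s i hi]
        ring)
    simpa only [sub_zero] using h1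
  · have h1 := h z A hz hA (0, 1) (fun s => YY z A s - f (XX z A s)) 0 (by
      intro h
      have h1 := congrArg (fun x : St A => (x.2 : ℕ)) h
      simp only [Fin.val_zero] at h1
      rw [val_one hA] at h1
      omega) (fun p hp => nu_ratio' hp hA) (fun s i hi => by
        rw [YY_update' hA s i hi, XX_update2 s i hi]
        ring)
    simpa only [sub_zero] using h1

end Pool.Agent.H31.JL
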