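import Pool.Agent.H31.JL.MDef

/-!
# JL Mean: the means of a bounded continuous function of the pair converge

Given `η`: `|φ| ≤ M`. `many` gives `K` such that the patterns with `∑_(s p ≠ (0,0)) 1 / p > K` have weight `≤ η`; for the others
`0 ≤ XX, YY ≤ K` (`el p i ≤ 1 / p`, `el p 0 = 0`). `φ` is uniformly continuous on the compact `[-1, K + 1]²`: `ε' ≤ 1`.
`apx2` with `min ε' η` (write `z = A`): outside a set of proportion `≤ η` both factors are within `ε'` of `XX, YY` of the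
pattern `pat z z n` (`XX_pat`, `YY_pat`). So the mean of `φ (gg n)` differs by at most `η + 4 M η` (for large `N`) from the mean
of `φ (XX (pat n), YY (pat n))`, which converges: it is `∑_s φ (XX s, YY s)` times the proportion of the `n` with
`pat z z n = s`, which tends to `wt z z s` (`pat_dens z A hA s` in `TL/PatD.lean`; compare `TL/Pat.lean`, `set_dens`).
Hence the sequence is Cauchy (`Metric.cauchySeq_iff'`, as `exists_limit3` in `JL/Lim3.lean`).
-/

set_option autoImplicit false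

namespace Pool.Agent.H31.JL

open Finset Filter Topology
open Pool.Agent.H31.TL
open Pool.Agent.H97.WIter (wf)

private theorem dens_fn (z A : ℕ) (hA : 1 ≤ A) (ψ : ((p : DD.Pz z) → St A) → ℝ) :
    Tendsto (fun N : ℕ => (∑ n ∈ Icc 1 N, ψ (pat z A n)) / (N : ℝ)) atTop
      (𝓝 (∑ s, ψ s * wt z A s)) := by
  have h1 : ∀ N : ℕ, (∑ n ∈ Icc 1 N, ψ (pat z A n)) / (N : ℝ) =
      ∑ s, ψ s * ((((Icc 1 N).filter (fun n => pat z A n = s)).card : ℝ) / N) := by
    intro N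
    have h2 : ∑ n ∈ Icc 1 N, ψ (pat z A n) =
        ∑ s, ψ s * (((Icc 1 N).filter (fun n => pat z A n = s)).card : ℝ) := by
      have h3 : ∑ n ∈ Icc 1 N, ψ (pat z A n) =
          ∑ n ∈ Icc 1 N, ∑ s, (if pat z A n = s then ψ s else 0) := by
        refine Finset.sum_congr rfl fun n _ => ?_
        rw [Finset.sum_ite_eq]
        simp
      rw [h3, Finset.sum_comm]
      refine Finset.sum_congr rfl fun s _ => ?_
      rw [← Finset.sum_filter, Finset.sum_const, nsmul_eq_mul, mul_comm]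
    rw [h2, Finset.sum_div]
    refine Finset.sum_congr rfl fun s _ => ?_
    rw [mul_div_assoc]
  simp only [h1]
  apply tendsto_finsetSum
  intro s _
  exact (pat_dens z A hA s).const_mul _

open Classical in
private theorem mean_apx (φ : BoundedContinuousFunction (ℝ × ℝ) ℝ) (η : ℝ) (hη : 0 < η) :
    ∃ z1 : ℕ, ∀ z : ℕ, z1 ≤ z → ∃ N0 : ℕ, ∀ N : ℕ, N0 ≤ N →
      |(∑ n ∈ Icc 1 N, φ (gg n)) / (N : ℝ) - ∑ s, φ (XX z z s, YY z z s) * wt z z s| ≤ η := by
  obtain ⟨M, hMd⟩ : ∃ M : ℝ, M = ‖φ‖ + 1 := ⟨_, rfl⟩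
  have hM : 0 < M := by rw [hMd]; positivity
  have hφ : ∀ x, |φ x| ≤ M := fun x => by
    have h1 := φ.norm_coe_le_norm x
    rw [Real.norm_eq_abs] at h1
    linarith
  obtain ⟨κ, hκd⟩ : ∃ κ : ℝ, κ = η / (12 * M) := ⟨_, rfl⟩
  have hκ : 0 < κ := by rw [hκd]; positivity
  have hκM : 4 * M * κ = η / 3 := by rw [hκd]; field_simp; ring
  obtain ⟨K, N1, hN1⟩ := tight2 κ hκ
  have hcomp : IsCompact (Set.Icc (-1 : ℝ) (K + 1) ×ˢ Set.Icc (-1 : ℝ) (K + 1)) :=
    isCompact_Icc.prod isCompact_Icc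
  obtain ⟨ρ, hρ, hunif⟩ := Metric.uniformContinuousOn_iff.1
    (hcomp.uniformContinuousOn_of_continuous φ.continuous.continuousOn) (η / 3) (by linarith)
  obtain ⟨ε', hε'd⟩ : ∃ ε' : ℝ, ε' = min (min 1 κ) (ρ / 2) := ⟨_, rfl⟩
  have hε' : 0 < ε' := by
    rw [hε'd]
    exact lt_min (lt_min one_pos hκ) (by linarith)
  have hε'1 : ε' ≤ 1 := by rw [hε'd]; exact (min_le_left _ _).trans (min_le_left _ _)
  have hε'2 : ε' ≤ κ := by rw [hε'd]; exact (min_le_left _ _).trans (min_le_right _ _)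
  have hε'3 : ε' ≤ ρ / 2 := by rw [hε'd]; exact min_le_right _ _
  obtain ⟨z0, hz0⟩ := apx2 ε' hε'
  refine ⟨max z0 2, fun z hz => ?_⟩
  have hzz0 : z0 ≤ z := (le_max_left _ _).trans hz
  have hz2 : 2 ≤ z := (le_max_right _ _).trans hz
  obtain ⟨N2, hN2⟩ := hz0 z z hzz0 le_rfl
  have hT := dens_fn z z (by omega) (fun s => φ (XX z z s, YY z z s))
  obtain ⟨N3, hN3⟩ := (Metric.tendsto_atTop.1 hT) (η / 3) (by linarith)
  refine ⟨max 1 (max N1 (max N2 N3)), fun N hN => ?_⟩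
  simp only [max_le_iff] at hN
  obtain ⟨hNp, hNN1, hNN2, hNN3⟩ := hN
  have hN0 : (0 : ℝ) < N := by exact_mod_cast hNp
  have k1 := hN1 N hNN1
  have k2 := hN2 N hNN2
  have k3 := hN3 N hNN3
  rw [Real.dist_eq] at k3
  have hpt : ∀ n ∈ Icc 1 N, |φ (gg n) - φ (XX z z (pat z z n), YY z z (pat z z n))| ≤
      η / 3 + 2 * M * (if K < (wf n : ℝ) / n ∨ K < (wf (wf n) : ℝ) / wf n then 1 else 0) +
        2 * M * (if ε' < |(wf n : ℝ) / n - Xn z z n| ∨
          ε' < |(wf (wf n) : ℝ) / wf n - Xn z z (wf n)| then 1 else 0) := by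
    intro n _
    have hb : |φ (gg n) - φ (XX z z (pat z z n), YY z z (pat z z n))| ≤ 2 * M := by
      have h1 := abs_le.1 (hφ (gg n))
      have h2 := abs_le.1 (hφ (XX z z (pat z z n), YY z z (pat z z n)))
      rw [abs_le]
      constructor <;> linarith [h1.1, h1.2, h2.1, h2.2]
    by_cases c1 : K < (wf n : ℝ) / n ∨ K < (wf (wf n) : ℝ) / wf n
    · rw [if_pos c1]
      have h3 : 0 ≤ 2 * M * (if ε' < |(wf n : ℝ) / n - Xn z z n| ∨
          ε' < |(wf (wf n) : ℝ) / wf n - Xn z z (wf n)| then (1 : ℝ) else 0) := by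
        split_ifs <;> linarith
      linarith
    · by_cases c2 : ε' < |(wf n : ℝ) / n - Xn z z n| ∨
          ε' < |(wf (wf n) : ℝ) / wf n - Xn z z (wf n)|
      · rw [if_pos c2, if_neg c1]
        linarith
      · rw [if_neg c1, if_neg c2]
        push Not at c1 c2
        have m1 := abs_le.1 c2.1
        have m2 := abs_le.1 c2.2
        have n1 : 0 ≤ (wf n : ℝ) / n := by positivity
        have n2 : 0 ≤ (wf (wf n) : ℝ) / wf n := by positivity
        have hd := hunif (gg n) ?_ (XX z z (pat z z n), YY z z (pat z z n)) ?_ ?_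
        · rw [Real.dist_eq] at hd
          linarith
        · refine ⟨⟨?_, ?_⟩, ⟨?_, ?_⟩⟩
          · show -1 ≤ (wf n : ℝ) / n
            linarith
          · show (wf n : ℝ) / n ≤ K + 1
            linarith [c1.1]
          · show -1 ≤ (wf (wf n) : ℝ) / wf n
            linarith
          · show (wf (wf n) : ℝ) / wf n ≤ K + 1
            linarith [c1.2]
        · rw [XX_pat, YY_pat]
          refine ⟨⟨?_, ?_⟩, ⟨?_, ?_⟩⟩
          · show -1 ≤ Xn z z n
            linarith [m1.1, m1.2]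
          · show Xn z z n ≤ K + 1
            linarith [m1.1, m1.2, c1.1]
          · show -1 ≤ Xn z z (wf n)
            linarith [m2.1, m2.2]
          · show Xn z z (wf n) ≤ K + 1
            linarith [m2.1, m2.2, c1.2]
        · rw [XX_pat, YY_pat, Prod.dist_eq, max_lt_iff, Real.dist_eq, Real.dist_eq]
          constructor
          · show |(wf n : ℝ) / n - Xn z z n| < ρ
            linarith [c2.1]
          · show |(wf (wf n) : ℝ) / wf n - Xn z z (wf n)| < ρ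
            linarith [c2.2]
  have hsum : |∑ n ∈ Icc 1 N, φ (gg n) -
      ∑ n ∈ Icc 1 N, φ (XX z z (pat z z n), YY z z (pat z z n))| ≤
      η / 3 * N + 2 * M * (κ * N) + 2 * M * (ε' * N) := by
    rw [← Finset.sum_sub_distrib]
    refine (Finset.abs_sum_le_sum_abs _ _).trans ((Finset.sum_le_sum hpt).trans ?_)
    rw [Finset.sum_add_distrib, Finset.sum_add_distrib, ← Finset.mul_sum, ← Finset.mul_sum,
      Finset.sum_boole, Finset.sum_boole, Finset.sum_const, Nat.card_Icc, Nat.add_sub_cancel,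
      nsmul_eq_mul]
    have h1 := mul_le_mul_of_nonneg_left k1 (by linarith : 0 ≤ 2 * M)
    have h2 := mul_le_mul_of_nonneg_left k2 (by linarith : 0 ≤ 2 * M)
    linarith
  have hF : |(∑ n ∈ Icc 1 N, φ (gg n)) / (N : ℝ) -
      (∑ n ∈ Icc 1 N, φ (XX z z (pat z z n), YY z z (pat z z n))) / (N : ℝ)| ≤ 2 * η / 3 := by
    rw [← sub_div, abs_div, abs_of_pos hN0, div_le_iff₀ hN0]
    refine hsum.trans ?_
    have h1 : 2 * M * (ε' * N) ≤ 2 * M * (κ * N) := by
      apply mul_le_mul_of_nonneg_left _ (by linarith)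
      exact mul_le_mul_of_nonneg_right hε'2 hN0.le
    have h2 : 2 * M * (κ * N) + 2 * M * (κ * N) = η / 3 * N := by
      rw [← hκM]
      ring
    have h3 : 2 * η / 3 * N = η / 3 * N + η / 3 * N := by ring
    linarith
  have h5 := abs_sub_le ((∑ n ∈ Icc 1 N, φ (gg n)) / (N : ℝ))
    ((∑ n ∈ Icc 1 N, φ (XX z z (pat z z n), YY z z (pat z z n))) / (N : ℝ))
    (∑ s, φ (XX z z s, YY z z s) * wt z z s)
  linarith

theorem mean_lim (φ : BoundedContinuousFunction (ℝ × ℝ) ℝ) :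
    ∃ Λ : ℝ, Tendsto (fun N : ℕ => (∑ n ∈ Icc 1 N, φ (gg n)) / (N : ℝ)) atTop (𝓝 Λ) ∧
      Tendsto (fun z : ℕ => ∑ s, φ (XX z z s, YY z z s) * wt z z s) atTop (𝓝 Λ) := by
  obtain ⟨Λ, hΛ⟩ : ∃ Λ : ℝ, Tendsto (fun N : ℕ => (∑ n ∈ Icc 1 N, φ (gg n)) / (N : ℝ)) atTop
      (𝓝 Λ) := by
    apply cauchySeq_tendsto_of_complete
    rw [Metric.cauchySeq_iff']
    intro ε hε
    obtain ⟨z1, h0⟩ := mean_apx φ (ε / 3) (by linarith)
    obtain ⟨N0, h⟩ := h0 z1 le_rfl
    refine ⟨N0, fun n hn => ?_⟩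
    have h1 := abs_le.1 (h n hn)
    have h2 := abs_le.1 (h N0 le_rfl)
    rw [Real.dist_eq, abs_lt]
    constructor <;> linarith [h1.1, h1.2, h2.1, h2.2]
  refine ⟨Λ, hΛ, ?_⟩
  rw [Metric.tendsto_atTop]
  intro ε hε
  obtain ⟨z1, h0⟩ := mean_apx φ (ε / 3) (by linarith)
  refine ⟨z1, fun z hz => ?_⟩
  obtain ⟨N0, h⟩ := h0 z hz
  obtain ⟨N1, h1⟩ := (Metric.tendsto_atTop.1 hΛ) (ε / 3) (by linarith)
  have h2 := abs_le.1 (h (max N0 N1) (le_max_left _ _))
  have h3 := h1 (max N0 N1) (le_max_right _ _)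
  rw [Real.dist_eq] at h3
  have h4 := abs_lt.1 h3
  rw [Real.dist_eq, abs_lt]
  constructor <;> linarith [h2.1, h2.2, h4.1, h4.2]

theorem mean_conv (φ : BoundedContinuousFunction (ℝ × ℝ) ℝ) :
    ∃ Λ : ℝ, Tendsto (fun N : ℕ => (∑ n ∈ Icc 1 N, φ (gg n)) / (N : ℝ)) atTop (𝓝 Λ) := by
  obtain ⟨Λ, h, -⟩ := mean_lim φ
  exact ⟨Λ, h⟩

end Pool.Agent.H31.JL
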