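import Pool.Agent.H31.JL.MDef
import Pool.Agent.H31.JL.Mean

/-!
# JL Emp: the limit measure

`P N`: the probability measure `(N + 1)⁻¹ ∑_(1 ≤ n ≤ N + 1) dirac (gg n)`; `P N A = DA A (N + 1)`. It is a tight sequence: by
`tight2` (`JL/Apx2.lean`) all but `ε N` of the `gg n`, `n ≤ N`, `N ≥ N0`, are in `[0, K]²` (compact; `g1_nonneg`,
`g2_nonneg`), and each of the finitely many others has finite support. So its closure is compact (Prokhorov:
`isCompact_closure_of_isTightMeasureSet` in `Mathlib/MeasureTheory/Measure/Prokhorov.lean`), there is a cluster point `μ`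
(`IsCompact.exists_mapClusterPt` or `..exists_clusterPt`), `∫ φ dμ` is the limit `Λ` of `mean_conv` for all bounded continuous `φ`
(`∫ φ dP_N = (∑ φ (gg n)) / (N + 1)`; the map `ν ↦ ∫ φ dν` is continuous, a cluster point of a convergent real sequence is the
limit), so `P N → μ` (`ProbabilityMeasure.tendsto_iff_forall_integral_tendsto`). The three conclusions are the portmanteau theorem:
`ProbabilityMeasure.tendsto_measure_of_null_frontier_of_tendsto`, `ProbabilityMeasure.le_liminf_measure_open_of_tendsto`,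
`..limsup_measure_closed_le_of_tendsto` (`Mathlib/MeasureTheory/Measure/Portmanteau.lean`).
-/

set_option autoImplicit false

namespace Pool.Agent.H31.JL

open Finset Filter Topology MeasureTheory
open Pool.Agent.H31.TL
open Pool.Agent.H97.WIter (wf)
open scoped ENNReal

/-- the empirical measure -/
private noncomputable def eP (N : ℕ) : Measure (ℝ × ℝ) :=
  ((N : ℝ≥0∞) + 1)⁻¹ • ∑ n ∈ Icc 1 (N + 1), Measure.dirac (gg n)

private theorem eP_apply (N : ℕ) (A : Set (ℝ × ℝ)) :
    eP N A = ENNReal.ofReal (DA A (N + 1)) := by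
  classical
  unfold eP DA
  rw [Measure.smul_apply, Measure.finsetSum_apply, smul_eq_mul]
  have h1 : ∀ n ∈ Icc 1 (N + 1), (Measure.dirac (gg n) : Measure (ℝ × ℝ)) A =
      if gg n ∈ A then 1 else 0 := by
    intro n _
    rw [Measure.dirac_apply, Set.indicator_apply]
    rfl
  rw [sum_congr rfl h1, sum_boole]
  have h2 : (0 : ℝ) < ((N + 1 : ℕ) : ℝ) := by positivity
  rw [ENNReal.ofReal_div_of_pos h2, ENNReal.ofReal_natCast, ENNReal.ofReal_natCast,
    ENNReal.div_eq_inv_mul]
  push_cast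
  congr

private theorem empDA_mono {A B : Set (ℝ × ℝ)} (h : A ⊆ B) (N : ℕ) :
    DA A N ≤ DA B N := by
  classical
  unfold DA
  refine div_le_div_of_nonneg_right ?_ (by positivity)
  refine Nat.cast_le.2 (card_le_card ?_)
  intro n hn
  rw [mem_filter] at hn ⊢
  exact ⟨hn.1, h hn.2⟩

private theorem empDA_zero {A : Set (ℝ × ℝ)} {N : ℕ}
    (h : ∀ n ∈ Icc 1 N, gg n ∉ A) : DA A N = 0 := by
  classical
  unfold DA
  rw [filter_false_of_mem h, card_empty, Nat.cast_zero, zero_div]

private theorem eP_prob (N : ℕ) : IsProbabilityMeasure (eP N) := by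
  classical
  refine ⟨?_⟩
  rw [eP_apply]
  unfold DA
  simp only [Set.mem_univ, Finset.filter_true, Nat.card_Icc, Nat.add_sub_cancel]
  rw [div_self (by positivity), ENNReal.ofReal_one]

private theorem eP_integral (N : ℕ) (φ : BoundedContinuousFunction (ℝ × ℝ) ℝ) :
    ∫ x, φ x ∂(eP N) = (∑ n ∈ Icc 1 (N + 1), φ (gg n)) / ((N + 1 : ℕ) : ℝ) := by
  unfold eP
  rw [integral_smul_measure, integral_finsetSum_measure]
  · simp only [integral_dirac, smul_eq_mul]
    rw [ENNReal.toReal_inv, ENNReal.toReal_add (by simp) (by simp), ENNReal.toReal_natCast,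
      ENNReal.toReal_one]
    push_cast
    rw [div_eq_inv_mul]
  · intro n _
    exact φ.integrable _

private theorem empDA_le {A : Set (ℝ × ℝ)} {Q : ℕ → Prop} (inst : DecidablePred Q)
    (h : ∀ n, gg n ∈ A → Q n) (N : ℕ) : DA A N ≤ (((Icc 1 N).filter Q).card : ℝ) / N := by
  classical
  unfold DA
  refine div_le_div_of_nonneg_right ?_ (by positivity)
  refine Nat.cast_le.2 (card_le_card ?_)
  intro n hn
  rw [mem_filter] at hn ⊢
  exact ⟨hn.1, h n hn.2⟩

private theorem box_tight (ε : ℝ) (hε : 0 < ε) : ∃ (K : Set (ℝ × ℝ)) (N0 : ℕ), IsCompact K ∧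
    ∀ N : ℕ, N0 ≤ N → DA Kᶜ N ≤ ε := by
  obtain ⟨K, N0, hK⟩ := tight2 ε hε
  refine ⟨Set.Icc 0 K ×ˢ Set.Icc 0 K, max N0 1, isCompact_Icc.prod isCompact_Icc,
    fun N hN => ?_⟩
  have h1 := hK N ((le_max_left _ _).trans hN)
  have h2 : (0 : ℝ) < N := by exact_mod_cast (le_max_right N0 1).trans hN
  rw [← div_le_iff₀ h2] at h1
  refine le_trans (empDA_le _ (fun n hn => ?_) N) h1
  by_contra h3
  rw [not_or, not_lt, not_lt] at h3
  exact hn ⟨⟨g1_nonneg n, h3.1⟩, ⟨g2_nonneg n, h3.2⟩⟩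

theorem exists_measure : ∃ μ : Measure (ℝ × ℝ), IsProbabilityMeasure μ ∧
    (∀ A : Set (ℝ × ℝ), μ (frontier A) = 0 → Tendsto (DA A) atTop (𝓝 (μ.real A))) ∧
    (∀ U : Set (ℝ × ℝ), IsOpen U → ∀ c : ℝ, (∀ᶠ N in atTop, DA U N ≤ c) → μ.real U ≤ c) ∧
    (∀ K : Set (ℝ × ℝ), IsClosed K → ∀ c : ℝ, (∀ᶠ N in atTop, c ≤ DA K N) → c ≤ μ.real K) ∧
    (∀ φ : BoundedContinuousFunction (ℝ × ℝ) ℝ, Tendsto
      (fun z : ℕ => ∑ s, φ (XX z z s, YY z z s) * wt z z s) atTop (𝓝 (∫ x, φ x ∂μ))) := by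
  have hnn : ∀ A N, 0 ≤ DA A N := fun A N => by unfold DA; positivity
  -- the sequence
  let P : ℕ → ProbabilityMeasure (ℝ × ℝ) := fun N => ⟨eP N, eP_prob N⟩
  have hPA : ∀ N A, ((P N : ProbabilityMeasure (ℝ × ℝ)) : Measure (ℝ × ℝ)) A =
      ENNReal.ofReal (DA A (N + 1)) := fun N A => eP_apply N A
  -- tightness
  have htight : IsTightMeasureSet {((μ : ProbabilityMeasure (ℝ × ℝ)) : Measure (ℝ × ℝ)) |
      μ ∈ Set.range P} := by
    rw [isTightMeasureSet_iff_exists_isCompact_measure_compl_le]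
    intro ε hε
    obtain ⟨ε', hε', hε'2⟩ : ∃ ε' : ℝ, 0 < ε' ∧ ENNReal.ofReal ε' ≤ ε := by
      refine ⟨(min ε 1).toReal, ?_, ?_⟩
      · exact ENNReal.toReal_pos (lt_min hε one_pos).ne' (ne_top_of_le_ne_top ENNReal.one_ne_top
          (min_le_right _ _))
      · rw [ENNReal.ofReal_toReal (ne_top_of_le_ne_top ENNReal.one_ne_top (min_le_right _ _))]
        exact min_le_left _ _
    obtain ⟨K, N0, hK, hN0⟩ := box_tight ε' hε'
    refine ⟨K ∪ gg '' (Icc 1 N0 : Finset ℕ), hK.union
      ((Finset.finite_toSet _).image gg).isCompact, ?_⟩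
    rintro _ ⟨_, ⟨N, rfl⟩, rfl⟩
    rw [hPA]
    refine le_trans (ENNReal.ofReal_le_ofReal ?_) hε'2
    by_cases hN : N0 ≤ N + 1
    · exact (empDA_mono (Set.compl_subset_compl.2 Set.subset_union_left) _).trans
        (hN0 (N + 1) hN)
    · rw [empDA_zero]
      · exact hε'.le
      · intro n hn h
        rw [mem_Icc] at hn
        refine h (Or.inr ⟨n, ?_, rfl⟩)
        rw [Finset.mem_coe, mem_Icc]
        omega
  have hcomp := isCompact_closure_of_isTightMeasureSet htight
  -- a limit along an ultrafilter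
  let U : Ultrafilter ℕ := Ultrafilter.of atTop
  have hU : (U : Filter ℕ) ≤ atTop := Ultrafilter.of_le atTop
  obtain ⟨μ, -, hμ⟩ := hcomp.ultrafilter_le_nhds (U.map P) (by
    rw [le_principal_iff, Ultrafilter.coe_map, Filter.mem_map]
    exact Filter.univ_mem' fun N => subset_closure ⟨N, rfl⟩)
  have hμU : Tendsto P U (𝓝 μ) := hμ
  have hlim : Tendsto P atTop (𝓝 μ) := by
    rw [ProbabilityMeasure.tendsto_iff_forall_integral_tendsto] at hμU ⊢
    intro φ
    obtain ⟨Λ, hΛ⟩ := mean_conv φ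
    have h1 : Tendsto (fun N => ∫ x, φ x ∂(P N : Measure (ℝ × ℝ))) atTop (𝓝 Λ) := by
      have h2 := (tendsto_add_atTop_iff_nat 1).2 hΛ
      refine h2.congr fun N => ?_
      exact (eP_integral N φ).symm
    have h3 := tendsto_nhds_unique (h1.mono_left hU) (hμU φ)
    rw [← h3]
    exact h1
  refine ⟨(μ : Measure (ℝ × ℝ)), inferInstance, ?_, ?_, ?_, ?_⟩
  · intro A hA
    have h1 := ProbabilityMeasure.tendsto_measure_of_null_frontier_of_tendsto' hlim hA
    have h2 := (ENNReal.tendsto_toReal (measure_ne_top _ A)).comp h1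
    refine (tendsto_add_atTop_iff_nat 1).1 (h2.congr fun N => ?_)
    simp only [Function.comp_apply]
    rw [hPA, ENNReal.toReal_ofReal (hnn _ _)]
  · intro V hV c hc
    have hc0 : 0 ≤ c := by
      obtain ⟨N, hN⟩ := hc.exists
      exact (hnn V N).trans hN
    have h1 := ProbabilityMeasure.le_liminf_measure_open_of_tendsto hlim hV
    have h2 : liminf (fun N => ((P N : ProbabilityMeasure (ℝ × ℝ)) : Measure (ℝ × ℝ)) V) atTop ≤
        ENNReal.ofReal c := by
      refine liminf_le_of_frequently_le' (Eventually.frequently ?_)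
      filter_upwards [(tendsto_add_atTop_nat 1).eventually hc] with N hN
      rw [hPA]
      exact ENNReal.ofReal_le_ofReal hN
    exact ENNReal.toReal_le_of_le_ofReal hc0 (h1.trans h2)
  · intro K hK c hc
    have h1 := ProbabilityMeasure.limsup_measure_closed_le_of_tendsto hlim hK
    have h2 : ENNReal.ofReal c ≤
        limsup (fun N => ((P N : ProbabilityMeasure (ℝ × ℝ)) : Measure (ℝ × ℝ)) K) atTop := by
      refine le_limsup_of_frequently_le' (Eventually.frequently ?_)
      filter_upwards [(tendsto_add_atTop_nat 1).eventually hc] with N hN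
      rw [hPA]
      exact ENNReal.ofReal_le_ofReal hN
    exact (ENNReal.ofReal_le_iff_le_toReal (measure_ne_top _ _)).1 (h2.trans h1)
  · intro φ
    obtain ⟨Λ, hΛ, hL⟩ := mean_lim φ
    have h1 : Tendsto (fun N => ∫ x, φ x ∂(P N : Measure (ℝ × ℝ))) atTop (𝓝 Λ) := by
      have h2 := (tendsto_add_atTop_iff_nat 1).2 hΛ
      refine h2.congr fun N => ?_
      exact (eP_integral N φ).symm
    have h3 := tendsto_nhds_unique h1
      ((ProbabilityMeasure.tendsto_iff_forall_integral_tendsto.1 hlim) φ)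
    rw [← h3]
    exact hL

end Pool.Agent.H31.JL
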