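import Pool.Agent.H31.JL.MDef

/-!
# JL Graph: neighbourhoods of the graph of a continuous function

`conc4` is uniform in `f`, so `ε` does not depend on `f`; on the compact `[-1, K + 1]` (`many`, as in `JL/Mean.lean`) `f` is uniformly continuous.
-/

set_option autoImplicit false

namespace Pool.Agent.H31.JL

open Finset Filter Topology
open Pool.Agent.H31.TL
open Pool.Agent.H97.WIter (wf)

private theorem el_le' (p i : ℕ) (hp : 2 ≤ p) : el p i ≤ 1 / (p : ℝ) := by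
  have h1 : (1 : ℝ) ≤ p := by
    have : 1 ≤ p := by omega
    exact_mod_cast this
  unfold el
  split_ifs with h
  · positivity
  · apply one_div_le_one_div_of_le (by linarith)
    exact le_self_pow₀ h1 h

private theorem el_nn (p i : ℕ) : 0 ≤ el p i := by
  unfold el
  split_ifs <;> positivity

open Classical in
private theorem coord_le {z A : ℕ} (s : (p : DD.Pz z) → St A) (f : St A → ℕ) (hf : f (0, 0) = 0) :
    0 ≤ ∑ p : DD.Pz z, el (p : ℕ) (f (s p)) ∧
    ∑ p : DD.Pz z, el (p : ℕ) (f (s p)) ≤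
      ∑ p ∈ univ.filter (fun p : DD.Pz z => s p ≠ (0, 0)), 1 / ((p : ℕ) : ℝ) := by
  refine ⟨sum_nonneg fun p _ => el_nn _ _, ?_⟩
  rw [sum_filter]
  apply sum_le_sum
  intro p _
  by_cases h : s p = (0, 0)
  · rw [if_neg (not_not.2 h), h, hf]
    unfold el
    simp
  · rw [if_pos h]
    exact el_le' _ _ (DD.mem_Pz.1 p.2).2.two_le

open Classical in
theorem XX_box {z A : ℕ} (s : (p : DD.Pz z) → St A) : 0 ≤ XX z A s ∧
    XX z A s ≤ ∑ p ∈ univ.filter (fun p : DD.Pz z => s p ≠ (0, 0)), 1 / ((p : ℕ) : ℝ) :=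
  coord_le s (fun a => (a.1 : ℕ)) (by simp)

open Classical in
theorem YY_box {z A : ℕ} (s : (p : DD.Pz z) → St A) : 0 ≤ YY z A s ∧
    YY z A s ≤ ∑ p ∈ univ.filter (fun p : DD.Pz z => s p ≠ (0, 0)), 1 / ((p : ℕ) : ℝ) :=
  coord_le s (fun a => (a.2 : ℕ)) (by simp)

open Classical in
theorem graph_small (η : ℝ) (hη : 0 < η) :
    ∃ ε : ℝ, 0 < ε ∧ ∀ f : ℝ → ℝ, Continuous f → ∀ᶠ N in atTop,
      DA {z | |z.2 - f z.1| < ε} N ≤ η ∧ DA {z | |z.1 - f z.2| < ε} N ≤ η := by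
  obtain ⟨K, hK0, hmany⟩ := many (η / 8) (by linarith)
  obtain ⟨z2, ε2, hε2, hconc⟩ := conc4 (η / 8) (by linarith)
  refine ⟨ε2 / 2, by linarith, fun f hf => ?_⟩
  have huc := (isCompact_Icc (a := (-1 : ℝ)) (b := K + 1)).uniformContinuousOn_of_continuous
    hf.continuousOn
  rw [Metric.uniformContinuousOn_iff] at huc
  obtain ⟨δ, hδ, hδf⟩ := huc (ε2 / 4) (by linarith)
  obtain ⟨ε', hε'd⟩ : ∃ ε' : ℝ, ε' = min (min (δ / 2) (ε2 / 4)) (min 1 (η / 8)) := ⟨_, rfl⟩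
  have hε' : 0 < ε' := by
    rw [hε'd]
    exact lt_min (lt_min (by linarith) (by linarith)) (lt_min one_pos (by linarith))
  have hε'1 : ε' ≤ δ / 2 := by
    rw [hε'd]; exact (min_le_left _ _).trans (min_le_left _ _)
  have hε'2 : ε' ≤ ε2 / 4 := by
    rw [hε'd]; exact (min_le_left _ _).trans (min_le_right _ _)
  have hε'3 : ε' ≤ 1 := by
    rw [hε'd]; exact (min_le_right _ _).trans (min_le_left _ _)
  have hε'4 : ε' ≤ η / 8 := by
    rw [hε'd]; exact (min_le_right _ _).trans (min_le_right _ _)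
  obtain ⟨z0, hz0⟩ := apx2 ε' hε'
  obtain ⟨z, hzd⟩ : ∃ z : ℕ, z = max (max z0 z2) 2 := ⟨_, rfl⟩
  have hzz0 : z0 ≤ z := by rw [hzd]; exact le_trans (le_max_left _ _) (le_max_left _ _)
  have hzz2 : z2 ≤ z := by rw [hzd]; exact le_trans (le_max_right _ _) (le_max_left _ _)
  have hz2 : 2 ≤ z := by rw [hzd]; exact le_max_right _ _
  obtain ⟨N1, hN1⟩ := hz0 z z hzz0 le_rfl
  have h1 := set_dens z z (by omega) (fun u => |YY z z u - f (XX z z u)| ≤ ε2)
  have h2 := set_dens z z (by omega) (fun u => |XX z z u - f (YY z z u)| ≤ ε2)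
  have h3 := set_dens z z (by omega) (fun u : (p : DD.Pz z) → St z =>
    K < ∑ p ∈ univ.filter (fun p : DD.Pz z => u p ≠ (0, 0)), 1 / ((p : ℕ) : ℝ))
  have w1 := (hconc z z hzz2 hz2 f).2
  have w2 := (hconc z z hzz2 hz2 f).1
  have w3 := hmany z z hz2
  obtain ⟨N2, hN2⟩ := (Metric.tendsto_atTop.1 h1) (η / 8) (by linarith)
  obtain ⟨N3, hN3⟩ := (Metric.tendsto_atTop.1 h2) (η / 8) (by linarith)
  obtain ⟨N4, hN4⟩ := (Metric.tendsto_atTop.1 h3) (η / 8) (by linarith)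
  rw [eventually_atTop]
  refine ⟨max 1 (max N1 (max N2 (max N3 N4))), fun N hN => ?_⟩
  simp only [max_le_iff] at hN
  obtain ⟨hNp, hNN1, hNN2, hNN3, hNN4⟩ := hN
  have hN0 : (0 : ℝ) < N := by exact_mod_cast hNp
  have k1 := hN1 N hNN1
  have k2 := hN2 N hNN2
  have k3 := hN3 N hNN3
  have k4 := hN4 N hNN4
  rw [Real.dist_eq] at k2 k3 k4
  set B1 := (Icc 1 N).filter (fun n => ε' < |(wf n : ℝ) / n - Xn z z n| ∨
    ε' < |(wf (wf n) : ℝ) / wf n - Xn z z (wf n)|) with hB1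
  set B2 := (Icc 1 N).filter (fun n => |YY z z (pat z z n) - f (XX z z (pat z z n))| ≤ ε2) with hB2
  set B3 := (Icc 1 N).filter (fun n => |XX z z (pat z z n) - f (YY z z (pat z z n))| ≤ ε2) with hB3
  set B4 := (Icc 1 N).filter (fun n => K < ∑ p ∈ univ.filter
    (fun p : DD.Pz z => pat z z n p ≠ (0, 0)), 1 / ((p : ℕ) : ℝ)) with hB4
  have c1 : (B1.card : ℝ) / N ≤ η / 8 := by
    rw [div_le_iff₀ hN0]
    exact k1.trans (mul_le_mul_of_nonneg_right hε'4 hN0.le)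
  have c2 : (B2.card : ℝ) / N ≤ η / 8 + η / 8 := by
    have := (abs_lt.1 k2).2
    linarith
  have c3 : (B3.card : ℝ) / N ≤ η / 8 + η / 8 := by
    have := (abs_lt.1 k3).2
    linarith
  have c4 : (B4.card : ℝ) / N ≤ η / 8 + η / 8 := by
    have := (abs_lt.1 k4).2
    linarith
  -- the facts outside `B1` and `B4`
  have hout : ∀ n ∈ Icc 1 N, n ∉ B1 → n ∉ B4 →
      |g1 n - XX z z (pat z z n)| ≤ ε' ∧ |g2 n - YY z z (pat z z n)| ≤ ε' ∧
      |f (g1 n) - f (XX z z (pat z z n))| < ε2 / 4 ∧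
      |f (g2 n) - f (YY z z (pat z z n))| < ε2 / 4 := by
    intro n hn hn1 hn4
    rw [hB1, mem_filter] at hn1
    rw [hB4, mem_filter] at hn4
    have m1 : |g1 n - Xn z z n| ≤ ε' := by
      by_contra hc
      push Not at hc
      exact hn1 ⟨hn, Or.inl hc⟩
    have m2 : |g2 n - Xn z z (wf n)| ≤ ε' := by
      by_contra hc
      push Not at hc
      exact hn1 ⟨hn, Or.inr hc⟩
    have m3 : ∑ p ∈ univ.filter (fun p : DD.Pz z => pat z z n p ≠ (0, 0)), 1 / ((p : ℕ) : ℝ) ≤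
        K := by
      by_contra hc
      push Not at hc
      exact hn4 ⟨hn, hc⟩
    rw [← XX_pat] at m1
    rw [← YY_pat] at m2
    have b1 := XX_box (pat z z n)
    have b2 := YY_box (pat z z n)
    have a1 := abs_le.1 m1
    have a2 := abs_le.1 m2
    have X1 : XX z z (pat z z n) ∈ Set.Icc (-1 : ℝ) (K + 1) := ⟨by linarith, by linarith⟩
    have Y1 : YY z z (pat z z n) ∈ Set.Icc (-1 : ℝ) (K + 1) := ⟨by linarith, by linarith⟩
    have X2 : g1 n ∈ Set.Icc (-1 : ℝ) (K + 1) := ⟨by linarith [a1.1], by linarith [a1.2]⟩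
    have Y2 : g2 n ∈ Set.Icc (-1 : ℝ) (K + 1) := ⟨by linarith [a2.1], by linarith [a2.2]⟩
    have d1 := hδf _ X2 _ X1 (by rw [Real.dist_eq]; linarith)
    have d2 := hδf _ Y2 _ Y1 (by rw [Real.dist_eq]; linarith)
    rw [Real.dist_eq] at d1 d2
    exact ⟨m1, m2, d1, d2⟩
  have hdiv : ∀ S : Finset ℕ, ∀ T : Finset ℕ, S ⊆ B1 ∪ (B4 ∪ T) →
      (T.card : ℝ) / N ≤ η / 8 + η / 8 → (S.card : ℝ) / N ≤ η := by
    intro S T hST hT
    have a1 := (card_le_card hST).trans (card_union_le _ _)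
    have a2 := card_union_le B4 T
    have a3 : (S.card : ℝ) ≤ B1.card + (B4.card + T.card) := by
      exact_mod_cast a1.trans (by omega)
    have a4 : (S.card : ℝ) / N ≤ (B1.card : ℝ) / N + (B4.card / N + T.card / N) := by
      rw [← add_div, ← add_div]
      exact div_le_div_of_nonneg_right a3 hN0.le
    linarith
  constructor
  · unfold DA
    apply hdiv _ B2 _ c2
    intro n hn
    rw [mem_filter] at hn
    rw [mem_union, mem_union]
    by_cases h5 : n ∈ B1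
    · exact Or.inl h5
    by_cases h6 : n ∈ B4
    · exact Or.inr (Or.inl h6)
    right; right
    obtain ⟨m1, m2, m3, m4⟩ := hout n hn.1 h5 h6
    have hlt : |g2 n - f (g1 n)| < ε2 / 2 := hn.2
    rw [hB2, mem_filter]
    refine ⟨hn.1, ?_⟩
    have a1 := abs_le.1 m2
    have a2 := abs_lt.1 m3
    have a3 := abs_lt.1 hlt
    rw [abs_le]
    constructor <;> linarith [a1.1, a1.2, a2.1, a2.2, a3.1, a3.2]
  · unfold DA
    apply hdiv _ B3 _ c3
    intro n hn
    rw [mem_filter] at hn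
    rw [mem_union, mem_union]
    by_cases h5 : n ∈ B1
    · exact Or.inl h5
    by_cases h6 : n ∈ B4
    · exact Or.inr (Or.inl h6)
    right; right
    obtain ⟨m1, m2, m3, m4⟩ := hout n hn.1 h5 h6
    have hlt : |g1 n - f (g2 n)| < ε2 / 2 := hn.2
    rw [hB3, mem_filter]
    refine ⟨hn.1, ?_⟩
    have a1 := abs_le.1 m1
    have a2 := abs_lt.1 m4
    have a3 := abs_lt.1 hlt
    rw [abs_le]
    constructor <;> linarith [a1.1, a1.2, a2.1, a2.2, a3.1, a3.2]

end Pool.Agent.H31.JL
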