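import Pool.Agent.H31.TL.Supp

/-!
# JL Supp3: every rectangle of the quadrant has positive mass

As `TL.supp_model`, with two different targets `x` and `y` for the sums over the primes with the states `(1, 0)` and
`(0, 1)`.
-/

set_option autoImplicit false

namespace Pool.Agent.H31.JL

open Finset
open Pool.Agent.H31.TL

private theorem nu_zero (p A : ℕ) (hA : 1 ≤ A) :
    nu p A ((0 : Fin (A + 1)), (0 : Fin (A + 1))) = (1 - 1 / (p : ℝ)) * (1 - 1 / (p : ℝ)) := by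
  unfold nu al
  rw [if_pos (by simp), if_pos (by simp; omega)]
  simp

private theorem tail_le (z zz : ℕ) (hz : zz ≤ z) (hzz : zz ≠ 0) :
    ∑ p ∈ (DD.Pz z).filter (fun p => ¬ p ≤ zz), 2 / (p : ℝ) ^ 2 ≤ 2 / (zz : ℝ) := by
  have h1 : ∑ p ∈ (DD.Pz z).filter (fun p => ¬ p ≤ zz), 2 / (p : ℝ) ^ 2 ≤
      ∑ p ∈ Ioc zz z, 2 / (p : ℝ) ^ 2 := by
    apply Finset.sum_le_sum_of_subset_of_nonneg
    · intro p hp
      rw [mem_filter, DD.mem_Pz] at hp
      rw [mem_Ioc]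
      omega
    · intro p _ _
      positivity
  have h2 : ∑ p ∈ Ioc zz z, 2 / (p : ℝ) ^ 2 = 2 * ∑ p ∈ Ioc zz z, ((p : ℝ) ^ 2)⁻¹ := by
    rw [Finset.mul_sum]
    rfl
  have h3 := sum_Ioc_inv_sq_le_sub (α := ℝ) hzz hz
  have h4 : (0 : ℝ) ≤ (z : ℝ)⁻¹ := by positivity
  have h5 : 2 / (zz : ℝ) = 2 * (zz : ℝ)⁻¹ := rfl
  rw [h5]
  linarith

open Classical in
private theorem mass (z zz A : ℕ) (hz : zz ≤ z) (hzz : zz ≠ 0) (hA : 1 ≤ A) (st : ℕ → St A)
    (κ : ℝ) (hκ : 0 < κ) (hk : 4 ≤ κ * zz) :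
    (∏ p ∈ DD.Pz zz, nu p A (st p)) / 2 ≤
      ∑ s ∈ univ.filter (fun s : (p : DD.Pz z) → St A =>
        (∀ p : DD.Pz z, (p : ℕ) ≤ zz → s p = st p) ∧
        ∑ p ∈ univ.filter (fun p : DD.Pz z => s p ≠ ((0 : Fin (A + 1)), (0 : Fin (A + 1)))),
          (if (p : ℕ) ≤ zz then 0 else 1 / ((p : ℕ) : ℝ)) ≤ κ), wt z A s := by
  set a0 : St A := ((0 : Fin (A + 1)), (0 : Fin (A + 1))) with ha0
  set r : DD.Pz z → ℝ := fun p => if (p : ℕ) ≤ zz then 0 else 1 / ((p : ℕ) : ℝ) with hr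
  set μ : DD.Pz z → St A → ℝ := fun p a =>
    if (p : ℕ) ≤ zz then (if a = st p then 1 else 0) else nu p A a with hμ
  have hp2 : ∀ p : DD.Pz z, 2 ≤ (p : ℕ) := fun p => (DD.mem_Pz.1 p.2).2.two_le
  have hr0 : ∀ p, 0 ≤ r p := by
    intro p
    simp only [hr]
    split_ifs <;> positivity
  have h0 : ∀ p a, 0 ≤ μ p a := by
    intro p a
    simp only [hμ]
    split_ifs
    · exact zero_le_one
    · exact le_rfl
    · exact nu_nonneg p A (hp2 p) a
  have h1 : ∀ p, ∑ a, μ p a = 1 := by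
    intro p
    simp only [hμ]
    split_ifs with h
    · simp
    · exact nu_sum p A (hp2 p) hA
  set c0 : ℝ := ∏ p ∈ DD.Pz zz, nu p A (st p) with hc0
  have hc0n : 0 ≤ c0 := Finset.prod_nonneg (fun p hp => nu_nonneg p A (DD.mem_Pz.1 hp).2.two_le _)
  -- the constant
  have hc : ∏ p : DD.Pz z, (if (p : ℕ) ≤ zz then nu p A (st p) else 1) = c0 := by
    rw [Finset.prod_coe_sort (DD.Pz z) (fun p => if p ≤ zz then nu p A (st p) else 1), hc0,
      ← Finset.prod_filter]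
    apply Finset.prod_congr _ (fun _ _ => rfl)
    ext p
    rw [mem_filter, DD.mem_Pz, DD.mem_Pz]
    constructor
    · rintro ⟨⟨_, h2⟩, h3⟩
      exact ⟨h3, h2⟩
    · rintro ⟨h2, h3⟩
      exact ⟨⟨by omega, h3⟩, h2⟩
  have hle : ∀ s : DD.Pz z → St A, c0 * ∏ p, μ p (s p) ≤ wt z A s := by
    intro s
    rw [← hc, ← Finset.prod_mul_distrib]
    unfold wt
    apply Finset.prod_le_prod
    · intro p _
      apply mul_nonneg _ (h0 p _)
      split_ifs
      · exact nu_nonneg p A (hp2 p) _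
      · exact zero_le_one
    · intro p _
      simp only [hμ]
      split_ifs with h2 h3
      · rw [h3, mul_one]
      · rw [mul_zero]
        exact nu_nonneg p A (hp2 p) _
      · rw [one_mul]
  -- Markov
  have hM := pm_markov μ h0 h1 r hr0 a0 κ hκ.le
  have hmean : ∑ p, r p * (1 - μ p a0) ≤ 2 / (zz : ℝ) := by
    refine le_trans ?_ (tail_le z zz hz hzz)
    rw [Finset.sum_filter, ← Finset.sum_coe_sort (DD.Pz z)]
    apply Finset.sum_le_sum
    intro p _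
    have h2p : (2 : ℝ) ≤ ((p : ℕ) : ℝ) := by exact_mod_cast hp2 p
    simp only [hr, hμ]
    by_cases h : (p : ℕ) ≤ zz
    · rw [if_pos h, if_neg (not_not.2 h), zero_mul]
    · rw [if_neg h, if_pos h, if_neg h, ha0, nu_zero _ _ hA]
      have h3 : 1 - (1 - 1 / ((p : ℕ) : ℝ)) * (1 - 1 / ((p : ℕ) : ℝ)) ≤ 2 / ((p : ℕ) : ℝ) := by
        have h4 : 0 ≤ (1 / ((p : ℕ) : ℝ)) ^ 2 := by positivity
        have h5 : 2 / ((p : ℕ) : ℝ) = 2 * (1 / ((p : ℕ) : ℝ)) := by ring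
        rw [h5]
        nlinarith
      calc 1 / ((p : ℕ) : ℝ) * (1 - (1 - 1 / ((p : ℕ) : ℝ)) * (1 - 1 / ((p : ℕ) : ℝ)))
          ≤ 1 / ((p : ℕ) : ℝ) * (2 / ((p : ℕ) : ℝ)) :=
            mul_le_mul_of_nonneg_left h3 (by positivity)
        _ = 2 / ((p : ℕ) : ℝ) ^ 2 := by
            field_simp
  have hbad : ∑ s ∈ univ.filter (fun s : DD.Pz z → St A => κ < ∑ i ∈ univ.filter (fun i => s i ≠ a0), r i),
      ∏ i, μ i (s i) ≤ 1 / 2 := by
    have hzz0 : (0 : ℝ) < zz := by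
      have : 0 < zz := Nat.pos_of_ne_zero hzz
      exact_mod_cast this
    have h2 : 2 / (zz : ℝ) ≤ κ / 2 := by
      rw [div_le_iff₀ hzz0]
      linarith
    have h3 := hM.trans (hmean.trans h2)
    by_contra hcon
    push Not at hcon
    nlinarith
  have htot := pm_total μ h1
  -- splitting
  set T : Finset (DD.Pz z → St A) := univ.filter (fun s =>
        (∀ p : DD.Pz z, (p : ℕ) ≤ zz → s p = st p) ∧
        ∑ p ∈ univ.filter (fun p : DD.Pz z => s p ≠ a0), r p ≤ κ) with hT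
  have hsplit : (1 : ℝ) ≤ ∑ s ∈ T, ∏ i, μ i (s i) + 1 / 2 := by
    refine le_trans ?_ (add_le_add_right hbad _)
    rw [← htot, ← Finset.sum_filter_add_sum_filter_not univ (fun s : DD.Pz z → St A =>
        (∀ p : DD.Pz z, (p : ℕ) ≤ zz → s p = st p) ∧
        ∑ p ∈ univ.filter (fun p : DD.Pz z => s p ≠ a0), r p ≤ κ)]
    apply add_le_add_right
    rw [Finset.sum_filter, Finset.sum_filter]
    apply Finset.sum_le_sum
    intro s _
    have hpr : 0 ≤ ∏ i, μ i (s i) := Finset.prod_nonneg (fun i _ => h0 i _)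
    by_cases hs : ∀ p : DD.Pz z, (p : ℕ) ≤ zz → s p = st p
    · by_cases hs2 : ∑ p ∈ univ.filter (fun p : DD.Pz z => s p ≠ a0), r p ≤ κ
      · rw [if_neg (by simp only [not_not]; exact ⟨hs, hs2⟩)]
        split_ifs
        · exact hpr
        · exact le_rfl
      · rw [if_pos (fun h => hs2 h.2), if_pos (not_le.1 hs2)]
    · have hz0 : ∏ i, μ i (s i) = 0 := by
        push Not at hs
        obtain ⟨p, hp1, hp3⟩ := hs
        apply Finset.prod_eq_zero (mem_univ p)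
        simp only [hμ]
        rw [if_pos hp1, if_neg hp3]
      rw [hz0]
      split_ifs <;> exact le_rfl
  have hfin : c0 * ∑ s ∈ T, ∏ i, μ i (s i) ≤ ∑ s ∈ T, wt z A s := by
    rw [Finset.mul_sum]
    exact Finset.sum_le_sum (fun s _ => hle s)
  have h7 : (1 : ℝ) / 2 ≤ ∑ s ∈ T, ∏ i, μ i (s i) := by linarith
  calc c0 / 2 = c0 * (1 / 2) := by ring
    _ ≤ c0 * ∑ s ∈ T, ∏ i, μ i (s i) := mul_le_mul_of_nonneg_left h7 hc0n
    _ ≤ _ := hfin

private theorem el_nonneg (p i : ℕ) : 0 ≤ el p i := by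
  unfold el
  split_ifs <;> positivity

private theorem el_le (p i : ℕ) (hp : 2 ≤ p) : el p i ≤ 1 / (p : ℝ) := by
  have h1 : (1 : ℝ) ≤ p := by
    have : 1 ≤ p := by omega
    exact_mod_cast this
  unfold el
  split_ifs with h
  · positivity
  · apply one_div_le_one_div_of_le (by linarith)
    exact le_self_pow₀ h1 h

private theorem sum_sel (z : ℕ) (S : Finset ℕ) (hS : ∀ p ∈ S, p ∈ DD.Pz z) :
    ∑ p : DD.Pz z, (if (p : ℕ) ∈ S then 1 / ((p : ℕ) : ℝ) else 0) = ∑ p ∈ S, 1 / (p : ℝ) := by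
  rw [Finset.sum_coe_sort (DD.Pz z) (fun p => if p ∈ S then 1 / (p : ℝ) else 0),
    ← Finset.sum_filter]
  apply Finset.sum_congr _ (fun _ _ => rfl)
  ext p
  rw [mem_filter]
  exact ⟨fun h => h.2, fun h => ⟨hS p h, h⟩⟩

open Classical in
/-- one coordinate of a pattern with prescribed small states and small tail -/
private theorem coord (z zz A : ℕ) (hz : zz ≤ z) (S : Finset ℕ) (hSp : ∀ p ∈ S, p.Prime ∧ p ≤ zz)
    (s : (p : DD.Pz z) → St A) (f : St A → ℕ) (a0 : St A) (hf : f a0 = 0) (κ : ℝ)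
    (hsm : ∀ p : DD.Pz z, (p : ℕ) ≤ zz → f (s p) = if (p : ℕ) ∈ S then 1 else 0)
    (ht : ∑ p ∈ univ.filter (fun p : DD.Pz z => s p ≠ a0),
          (if (p : ℕ) ≤ zz then 0 else 1 / ((p : ℕ) : ℝ)) ≤ κ) :
    ∑ p ∈ S, 1 / (p : ℝ) ≤ ∑ p : DD.Pz z, el p (f (s p)) ∧
      ∑ p : DD.Pz z, el p (f (s p)) ≤ ∑ p ∈ S, 1 / (p : ℝ) + κ := by
  have hp2 : ∀ p : DD.Pz z, 2 ≤ (p : ℕ) := fun p => (DD.mem_Pz.1 p.2).2.two_le
  have hsel := sum_sel z S (fun p hp => DD.mem_Pz.2 ⟨(hSp p hp).2.trans hz, (hSp p hp).1⟩)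
  constructor
  · rw [← hsel]
    apply Finset.sum_le_sum
    intro p _
    split_ifs with h
    · rw [hsm p (hSp p h).2, if_pos h]
      unfold el
      simp
    · exact el_nonneg _ _
  · rw [← hsel]
    refine le_trans ?_ (add_le_add_right ht _)
    rw [Finset.sum_filter, ← Finset.sum_add_distrib]
    apply Finset.sum_le_sum
    intro p _
    by_cases h : (p : ℕ) ≤ zz
    · rw [hsm p h, if_pos h]
      split_ifs <;> simp [el]
    · have hS : (p : ℕ) ∉ S := fun h1 => h (hSp p h1).2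
      rw [if_neg hS, if_neg h, zero_add]
      by_cases h1 : s p = a0
      · rw [if_neg (not_not.2 h1), h1, hf]
        unfold el
        simp
      · rw [if_pos h1]
        exact el_le _ _ (hp2 p)

open Classical in
theorem supp_rect (a b c d : ℝ) (ha : 0 ≤ a) (hab : a < b) (hc : 0 ≤ c) (hcd : c < d) :
    ∃ (m ε : ℝ) (z1 : ℕ), 0 < m ∧ 0 < ε ∧
    ∀ z A : ℕ, z1 ≤ z → 2 ≤ A → m ≤ ∑ s ∈ univ.filter (fun s : (p : DD.Pz z) → St A =>
      (a + ε ≤ XX z A s ∧ XX z A s ≤ b - ε) ∧ (c + ε ≤ YY z A s ∧ YY z A s ≤ d - ε)), wt z A s := by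
  obtain ⟨κ, hκd⟩ : ∃ κ : ℝ, κ = min ((b - a) / 8) ((d - c) / 8) := ⟨_, rfl⟩
  have hκ : 0 < κ := by rw [hκd]; exact lt_min (by linarith) (by linarith)
  have hκ1 : κ ≤ (b - a) / 8 := by rw [hκd]; exact min_le_left _ _
  have hκ2 : κ ≤ (d - c) / 8 := by rw [hκd]; exact min_le_right _ _
  obtain ⟨x, hxd⟩ : ∃ x : ℝ, x = (a + b) / 2 := ⟨_, rfl⟩
  obtain ⟨y, hyd⟩ : ∃ y : ℝ, y = (c + d) / 2 := ⟨_, rfl⟩
  have hx : 0 < x := by linarith
  have hy : 0 < y := by linarith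
  obtain ⟨S1, hS1p, -, hS1⟩ := approx x κ hx hκ ∅
  obtain ⟨S2, hS2p, hS12, hS2⟩ := approx y κ hy hκ S1
  obtain ⟨m, hm⟩ := exists_nat_gt (4 / κ)
  set zz : ℕ := max (max (S1.sup id) (S2.sup id)) (max m 1) with hzzd
  have hzz1 : 1 ≤ zz := (le_max_right m 1).trans (le_max_right _ _)
  have hzz : zz ≠ 0 := by omega
  have hz1 : ∀ p ∈ S1, p ≤ zz := fun p hp =>
    (Finset.le_sup (f := id) hp).trans ((le_max_left _ _).trans (le_max_left _ _))
  have hz2 : ∀ p ∈ S2, p ≤ zz := fun p hp =>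
    (Finset.le_sup (f := id) hp).trans ((le_max_right _ _).trans (le_max_left _ _))
  have hk : 4 ≤ κ * zz := by
    have h3 : (m : ℝ) ≤ zz := by
      have : m ≤ zz := (le_max_left m 1).trans (le_max_right _ _)
      exact_mod_cast this
    rw [div_lt_iff₀ hκ] at hm
    nlinarith
  set fw : ℕ → ℝ := fun p => if p ∈ S1 then (1 - 1 / (p : ℝ)) / (p : ℝ) else
    if p ∈ S2 then (1 - 1 / (p : ℝ)) * ((1 - 1 / (p : ℝ)) / (p : ℝ)) else
      (1 - 1 / (p : ℝ)) * (1 - 1 / (p : ℝ)) with hfw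
  have hfw0 : ∀ p ∈ DD.Pz zz, 0 < fw p := by
    intro p hp
    have h3 : (2 : ℝ) ≤ p := by exact_mod_cast (DD.mem_Pz.1 hp).2.two_le
    have h4 : 0 < 1 - 1 / (p : ℝ) := by
      rw [sub_pos, div_lt_one (by linarith)]
      linarith
    simp only [hfw]
    split_ifs <;> positivity
  refine ⟨(∏ p ∈ DD.Pz zz, fw p) / 2, κ, zz, half_pos (Finset.prod_pos hfw0), hκ, ?_⟩
  intro z A hz hA
  set st : ℕ → St A := fun p => if p ∈ S1 then ((⟨1, by omega⟩ : Fin (A + 1)), (0 : Fin (A + 1)))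
    else if p ∈ S2 then ((0 : Fin (A + 1)), (⟨1, by omega⟩ : Fin (A + 1)))
    else ((0 : Fin (A + 1)), (0 : Fin (A + 1))) with hst
  have hnu : ∏ p ∈ DD.Pz zz, nu p A (st p) = ∏ p ∈ DD.Pz zz, fw p := by
    apply Finset.prod_congr rfl
    intro p _
    simp only [hst, hfw]
    split_ifs with h3 h4
    · unfold nu al
      rw [if_neg (by simp), if_pos (by simp), if_pos (by simp; omega)]
      simp
    · unfold nu al
      rw [if_pos (by simp), if_pos (by simp; omega)]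
      simp
    · exact nu_zero p A (by omega)
  rw [← hnu]
  refine (mass z zz A hz hzz (by omega) st κ hκ hk).trans ?_
  apply Finset.sum_le_sum_of_subset_of_nonneg
  · intro s hs
    rw [mem_filter] at hs ⊢
    obtain ⟨-, hs1, hs2⟩ := hs
    refine ⟨mem_univ _, ?_⟩
    have hX := coord z zz A hz S1 (fun p hp => ⟨hS1p p hp, hz1 p hp⟩) s (fun t => (t.1 : ℕ))
      ((0 : Fin (A + 1)), (0 : Fin (A + 1))) (by simp) κ (by
        intro p hp
        rw [hs1 p hp]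
        simp only [hst]
        split_ifs <;> simp) hs2
    have hY := coord z zz A hz S2 (fun p hp => ⟨hS2p p hp, hz2 p hp⟩) s (fun t => (t.2 : ℕ))
      ((0 : Fin (A + 1)), (0 : Fin (A + 1))) (by simp) κ (by
        intro p hp
        rw [hs1 p hp]
        simp only [hst]
        by_cases h3 : (p : ℕ) ∈ S1
        · have h4 : (p : ℕ) ∉ S2 := fun h => Finset.disjoint_left.1 hS12 h h3
          rw [if_pos h3, if_neg h4]
          simp
        · rw [if_neg h3]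
          split_ifs <;> simp) hs2
    change ∑ p ∈ S1, 1 / (p : ℝ) ≤ XX z A s ∧ XX z A s ≤ _ at hX
    change ∑ p ∈ S2, 1 / (p : ℝ) ≤ YY z A s ∧ YY z A s ≤ _ at hY
    rw [abs_le] at hS1 hS2
    refine ⟨⟨?_, ?_⟩, ⟨?_, ?_⟩⟩
    · linarith [hX.1]
    · linarith [hX.2]
    · linarith [hY.1]
    · linarith [hY.2]
  · intro s _ _
    unfold wt
    exact Finset.prod_nonneg (fun p _ => nu_nonneg _ _ (DD.mem_Pz.1 p.2).2.two_le _)

end Pool.Agent.H31.JL
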