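import Pool.Agent.H31.TL.Lim
import Pool.Agent.H31.JL.Conc3
import Pool.Agent.H31.JL.Supp3
import Pool.Agent.H31.JL.Apx2

/-!
# JL Lim3: the joint limit law of `w(n) / n` and `w(w(n)) / w(n)`

`sandwich3`: `conc3` (`η / 8`), `apx2` with `ε' = min (ε2 / 2) (η / 4)`; for `|s' - s|, |t' - t| ≤ ε2 / 2` the sets
`g ≤ s'`, `G ≤ t'` and `X ≤ s`, `Y ≤ t` differ only in the bad set of `apx2` or in `|X - s| ≤ ε2` or `|Y - t| ≤ ε2`,
and the densities exist by `set_dens`. `rect`: the density of a rectangle is positive by `supp_rect`.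
-/

set_option autoImplicit false

namespace Pool.Agent.H31.JL

open Finset Filter Topology
open Pool.Agent.H31.TL
open Pool.Agent.H97.WIter (wf)

/-- the first factor -/
noncomputable def g1 (n : ℕ) : ℝ := (wf n : ℝ) / n

/-- the second factor -/
noncomputable def g2 (n : ℕ) : ℝ := (wf (wf n) : ℝ) / wf n

theorem g1_nonneg (n : ℕ) : 0 ≤ g1 n := by unfold g1; positivity

theorem g2_nonneg (n : ℕ) : 0 ≤ g2 n := by unfold g2; positivity

open Classical in
/-- the proportion of the `n ≤ N` with `w(n) / n ≤ s` and `w(w(n)) / w(n) ≤ t` -/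
noncomputable def DJ (s t : ℝ) (N : ℕ) : ℝ :=
  (((Icc 1 N).filter (fun n => g1 n ≤ s ∧ g2 n ≤ t)).card : ℝ) / N

open Classical in
theorem sandwich3 (s t η : ℝ) (hη : 0 < η) : ∃ (ε L : ℝ) (N0 : ℕ), 0 < ε ∧ ∀ N : ℕ, N0 ≤ N →
    ∀ s' t' : ℝ, |s' - s| ≤ ε → |t' - t| ≤ ε → |DJ s' t' N - L| ≤ η := by
  obtain ⟨z2, ε2, hε2, hconc⟩ := conc3 (η / 8) (by linarith)
  obtain ⟨ε', hε'd⟩ : ∃ ε' : ℝ, ε' = min (ε2 / 2) (η / 4) := ⟨_, rfl⟩
  have hε' : 0 < ε' := by rw [hε'd]; exact lt_min (by linarith) (by linarith)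
  have hε'1 : ε' ≤ ε2 / 2 := by rw [hε'd]; exact min_le_left _ _
  have hε'2 : ε' ≤ η / 4 := by rw [hε'd]; exact min_le_right _ _
  obtain ⟨z0, hz0⟩ := apx2 ε' hε'
  obtain ⟨z, hzd⟩ : ∃ z : ℕ, z = max (max z0 z2) 2 := ⟨_, rfl⟩
  have hzz0 : z0 ≤ z := by rw [hzd]; exact le_trans (le_max_left _ _) (le_max_left _ _)
  have hzz2 : z2 ≤ z := by rw [hzd]; exact le_trans (le_max_right _ _) (le_max_left _ _)
  have hz2 : 2 ≤ z := by rw [hzd]; exact le_max_right _ _
  obtain ⟨N1, hN1⟩ := hz0 z z hzz0 le_rfl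
  have h1 := set_dens z z (by omega) (fun u => XX z z u ≤ s ∧ YY z z u ≤ t)
  have h2 := set_dens z z (by omega) (fun u => |XX z z u - s| ≤ ε2)
  have h2' := set_dens z z (by omega) (fun u => |YY z z u - t| ≤ ε2)
  have h3 := (hconc z z hzz2 hz2 s).1
  have h3' := (hconc z z hzz2 hz2 t).2
  obtain ⟨L, hL⟩ : ∃ L : ℝ, Tendsto (fun N : ℕ => (((Icc 1 N).filter
      (fun n => XX z z (pat z z n) ≤ s ∧ YY z z (pat z z n) ≤ t)).card : ℝ) / N) atTop (𝓝 L) :=
    ⟨∑ u ∈ univ.filter (fun u : (p : DD.Pz z) → St z => XX z z u ≤ s ∧ YY z z u ≤ t), wt z z u, by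
      convert h1⟩
  obtain ⟨N2, hN2⟩ := (Metric.tendsto_atTop.1 hL) (η / 8) (by linarith)
  obtain ⟨N3, hN3⟩ := (Metric.tendsto_atTop.1 h2) (η / 8) (by linarith)
  obtain ⟨N4, hN4⟩ := (Metric.tendsto_atTop.1 h2') (η / 8) (by linarith)
  refine ⟨ε2 / 2, L, max 1 (max N1 (max N2 (max N3 N4))), by linarith, fun N hN s' t' hs ht => ?_⟩
  simp only [max_le_iff] at hN
  obtain ⟨hNp, hNN1, hNN2, hNN3, hNN4⟩ := hN
  have hN0 : (0 : ℝ) < N := by exact_mod_cast hNp
  have k1 := hN1 N hNN1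
  have k2 := hN2 N hNN2
  have k3 := hN3 N hNN3
  have k4 := hN4 N hNN4
  rw [Real.dist_eq] at k2 k3 k4
  set F1 := (Icc 1 N).filter (fun n => g1 n ≤ s' ∧ g2 n ≤ t') with hF1
  set F2 := (Icc 1 N).filter (fun n => XX z z (pat z z n) ≤ s ∧ YY z z (pat z z n) ≤ t) with hF2
  set B1 := (Icc 1 N).filter (fun n => ε' < |(wf n : ℝ) / n - Xn z z n| ∨
    ε' < |(wf (wf n) : ℝ) / wf n - Xn z z (wf n)|) with hB1
  set B2 := (Icc 1 N).filter (fun n => |XX z z (pat z z n) - s| ≤ ε2) with hB2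
  set B3 := (Icc 1 N).filter (fun n => |YY z z (pat z z n) - t| ≤ ε2) with hB3
  have hkey : ∀ n ∈ Icc 1 N, n ∉ B1 → n ∉ B2 → n ∉ B3 → (n ∈ F1 ↔ n ∈ F2) := by
    intro n hn hn1 hn2 hn3
    rw [hB1, mem_filter] at hn1
    rw [hB2, mem_filter] at hn2
    rw [hB3, mem_filter] at hn3
    rw [hF1, hF2, mem_filter, mem_filter]
    have m1 : |g1 n - Xn z z n| ≤ ε' := by
      by_contra hc
      push Not at hc
      exact hn1 ⟨hn, Or.inl hc⟩
    have m1' : |g2 n - Xn z z (wf n)| ≤ ε' := by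
      by_contra hc
      push Not at hc
      exact hn1 ⟨hn, Or.inr hc⟩
    have m2 : ε2 < |XX z z (pat z z n) - s| := by
      by_contra hc
      push Not at hc
      exact hn2 ⟨hn, hc⟩
    have m2' : ε2 < |YY z z (pat z z n) - t| := by
      by_contra hc
      push Not at hc
      exact hn3 ⟨hn, hc⟩
    rw [← XX_pat] at m1
    rw [← YY_pat] at m1'
    have m3 := abs_le.1 m1
    have m3' := abs_le.1 m1'
    have m4 := abs_le.1 hs
    have m4' := abs_le.1 ht
    have e1 : g1 n ≤ s' ↔ XX z z (pat z z n) ≤ s := by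
      rcases lt_abs.1 m2 with h6 | h6
      · constructor
        · intro h5; linarith [m3.1, m3.2, m4.1, m4.2]
        · intro h5; linarith [m3.1, m3.2, m4.1, m4.2]
      · constructor
        · intro h5; linarith [m3.1, m3.2, m4.1, m4.2]
        · intro h5; linarith [m3.1, m3.2, m4.1, m4.2]
    have e2 : g2 n ≤ t' ↔ YY z z (pat z z n) ≤ t := by
      rcases lt_abs.1 m2' with h6 | h6
      · constructor
        · intro h5; linarith [m3'.1, m3'.2, m4'.1, m4'.2]
        · intro h5; linarith [m3'.1, m3'.2, m4'.1, m4'.2]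
      · constructor
        · intro h5; linarith [m3'.1, m3'.2, m4'.1, m4'.2]
        · intro h5; linarith [m3'.1, m3'.2, m4'.1, m4'.2]
    rw [e1, e2]
  have hsub1 : F1 ⊆ F2 ∪ (B1 ∪ (B2 ∪ B3)) := by
    intro n hn
    have hnI : n ∈ Icc 1 N := (mem_filter.1 hn).1
    rw [mem_union, mem_union, mem_union]
    by_cases h5 : n ∈ B1
    · exact Or.inr (Or.inl h5)
    · by_cases h6 : n ∈ B2
      · exact Or.inr (Or.inr (Or.inl h6))
      · by_cases h7 : n ∈ B3
        · exact Or.inr (Or.inr (Or.inr h7))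
        · exact Or.inl ((hkey n hnI h5 h6 h7).1 hn)
  have hsub2 : F2 ⊆ F1 ∪ (B1 ∪ (B2 ∪ B3)) := by
    intro n hn
    have hnI : n ∈ Icc 1 N := (mem_filter.1 hn).1
    rw [mem_union, mem_union, mem_union]
    by_cases h5 : n ∈ B1
    · exact Or.inr (Or.inl h5)
    · by_cases h6 : n ∈ B2
      · exact Or.inr (Or.inr (Or.inl h6))
      · by_cases h7 : n ∈ B3
        · exact Or.inr (Or.inr (Or.inr h7))
        · exact Or.inl ((hkey n hnI h5 h6 h7).2 hn)
  have hc1 : (F1.card : ℝ) ≤ F2.card + (B1.card + (B2.card + B3.card)) := by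
    have a1 := card_le_card hsub1
    have a2 := card_union_le F2 (B1 ∪ (B2 ∪ B3))
    have a3 := card_union_le B1 (B2 ∪ B3)
    have a4 := card_union_le B2 B3
    exact_mod_cast a1.trans (a2.trans (by omega))
  have hc2 : (F2.card : ℝ) ≤ F1.card + (B1.card + (B2.card + B3.card)) := by
    have a1 := card_le_card hsub2
    have a2 := card_union_le F1 (B1 ∪ (B2 ∪ B3))
    have a3 := card_union_le B1 (B2 ∪ B3)
    have a4 := card_union_le B2 B3
    exact_mod_cast a1.trans (a2.trans (by omega))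
  have hd1 : (B1.card : ℝ) / N ≤ η / 4 := by
    rw [div_le_iff₀ hN0]
    exact k1.trans (mul_le_mul_of_nonneg_right hε'2 hN0.le)
  have hd2 : (B2.card : ℝ) / N ≤ η / 8 + η / 8 := by
    have := (abs_lt.1 k3).2
    linarith
  have hd2' : (B3.card : ℝ) / N ≤ η / 8 + η / 8 := by
    have := (abs_lt.1 k4).2
    linarith
  have hd3 : |(F1.card : ℝ) / N - F2.card / N| ≤
      (B1.card : ℝ) / N + (B2.card / N + B3.card / N) := by
    rw [← sub_div, ← add_div, ← add_div, abs_le]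
    constructor
    · rw [← neg_div]
      apply div_le_div_of_nonneg_right _ hN0.le
      linarith
    · apply div_le_div_of_nonneg_right _ hN0.le
      linarith
  have hd4 : |DJ s' t' N - L| ≤ |(F1.card : ℝ) / N - F2.card / N| + |(F2.card : ℝ) / N - L| := by
    have : DJ s' t' N = (F1.card : ℝ) / N := rfl
    rw [this]
    exact abs_sub_le _ _ _
  have hd5 : |(F2.card : ℝ) / N - L| < η / 8 := k2
  linarith

theorem exists_limit3 (s t : ℝ) : ∃ L : ℝ, Tendsto (DJ s t) atTop (𝓝 L) := by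
  apply cauchySeq_tendsto_of_complete
  rw [Metric.cauchySeq_iff']
  intro ε hε
  obtain ⟨ε1, L, N0, hε1, h⟩ := sandwich3 s t (ε / 3) (by linarith)
  refine ⟨N0, fun n hn => ?_⟩
  have h0 : |s - s| ≤ ε1 := by rw [sub_self, abs_zero]; exact hε1.le
  have h0' : |t - t| ≤ ε1 := by rw [sub_self, abs_zero]; exact hε1.le
  have h1 := h n hn s t h0 h0'
  have h2 := h N0 le_rfl s t h0 h0'
  rw [Real.dist_eq]
  have h3 := abs_le.1 h1
  have h4 := abs_le.1 h2
  rw [abs_lt]
  constructor <;> linarith [h3.1, h3.2, h4.1, h4.2]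

open Classical in
/-- the count of a rectangle -/
theorem rect_count (a b c d : ℝ) (hab : a ≤ b) (hcd : c ≤ d) (N : ℕ) :
    DJ b d N - DJ a d N - DJ b c N + DJ a c N =
      (((Icc 1 N).filter (fun n => (a < g1 n ∧ g1 n ≤ b) ∧ (c < g2 n ∧ g2 n ≤ d))).card : ℝ) / N := by
  unfold DJ
  rw [← sub_div, ← sub_div, ← add_div]
  congr 1
  rw [card_filter, card_filter, card_filter, card_filter, card_filter]
  push_cast
  rw [← sum_sub_distrib, ← sum_sub_distrib, ← sum_add_distrib]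
  apply sum_congr rfl
  intro n _
  by_cases h1 : g1 n ≤ a
  · have h2 : g1 n ≤ b := h1.trans hab
    have h3 : ¬ a < g1 n := not_lt.2 h1
    simp [h1, h2]
  · have h3 : a < g1 n := not_le.1 h1
    by_cases h4 : g1 n ≤ b
    · by_cases h5 : g2 n ≤ c
      · have h6 : g2 n ≤ d := h5.trans hcd
        simp [h1, h4, h5, h6]
      · have h7 : c < g2 n := not_le.1 h5
        simp [h1, h3, h4, h5, h7]
    · simp [h1, h4]

open Classical in
theorem rect (a b c d : ℝ) (ha : 0 ≤ a) (hab : a < b) (hc : 0 ≤ c) (hcd : c < d) :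
    ∃ m : ℝ, 0 < m ∧ ∃ N0 : ℕ, ∀ N : ℕ, N0 ≤ N →
      m ≤ DJ b d N - DJ a d N - DJ b c N + DJ a c N := by
  obtain ⟨m, ε, z1, hm, hε, hsm⟩ := supp_rect a b c d ha hab hc hcd
  obtain ⟨ε', hε'd⟩ : ∃ ε' : ℝ, ε' = min (ε / 2) (m / 4) := ⟨_, rfl⟩
  have hε' : 0 < ε' := by rw [hε'd]; exact lt_min (by linarith) (by linarith)
  have hε'1 : ε' ≤ ε / 2 := by rw [hε'd]; exact min_le_left _ _
  have hε'2 : ε' ≤ m / 4 := by rw [hε'd]; exact min_le_right _ _
  obtain ⟨z0, hz0⟩ := apx2 ε' hε'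
  obtain ⟨z, hzd⟩ : ∃ z : ℕ, z = max (max z0 z1) 2 := ⟨_, rfl⟩
  have hzz0 : z0 ≤ z := by rw [hzd]; exact le_trans (le_max_left _ _) (le_max_left _ _)
  have hzz2 : z1 ≤ z := by rw [hzd]; exact le_trans (le_max_right _ _) (le_max_left _ _)
  have hz2 : 2 ≤ z := by rw [hzd]; exact le_max_right _ _
  obtain ⟨N1, hN1⟩ := hz0 z z hzz0 le_rfl
  have h2 := set_dens z z (by omega) (fun u => (a + ε ≤ XX z z u ∧ XX z z u ≤ b - ε) ∧
    (c + ε ≤ YY z z u ∧ YY z z u ≤ d - ε))
  have h3 := hsm z z hzz2 hz2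
  obtain ⟨N3, hN3⟩ := (Metric.tendsto_atTop.1 h2) (m / 4) (by linarith)
  refine ⟨m / 2, by linarith, max 1 (max N1 N3), fun N hN => ?_⟩
  simp only [max_le_iff] at hN
  obtain ⟨hNp, hNN1, hNN3⟩ := hN
  have hN0 : (0 : ℝ) < N := by exact_mod_cast hNp
  have k1 := hN1 N hNN1
  have k3 := hN3 N hNN3
  rw [Real.dist_eq] at k3
  rw [rect_count a b c d hab.le hcd.le]
  set R := (Icc 1 N).filter (fun n => (a < g1 n ∧ g1 n ≤ b) ∧ (c < g2 n ∧ g2 n ≤ d)) with hR
  set B1 := (Icc 1 N).filter (fun n => ε' < |(wf n : ℝ) / n - Xn z z n| ∨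
    ε' < |(wf (wf n) : ℝ) / wf n - Xn z z (wf n)|) with hB1
  set B2 := (Icc 1 N).filter (fun n => (a + ε ≤ XX z z (pat z z n) ∧ XX z z (pat z z n) ≤ b - ε) ∧
    (c + ε ≤ YY z z (pat z z n) ∧ YY z z (pat z z n) ≤ d - ε)) with hB2
  have hsub : B2 ⊆ R ∪ B1 := by
    intro n hn
    rw [mem_union]
    by_cases h5 : n ∈ B1
    · exact Or.inr h5
    · left
      rw [hB2, mem_filter] at hn
      rw [hB1, mem_filter] at h5
      have m1 : |g1 n - Xn z z n| ≤ ε' := by
        by_contra hc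
        push Not at hc
        exact h5 ⟨hn.1, Or.inl hc⟩
      have m1' : |g2 n - Xn z z (wf n)| ≤ ε' := by
        by_contra hc
        push Not at hc
        exact h5 ⟨hn.1, Or.inr hc⟩
      rw [← XX_pat] at m1
      rw [← YY_pat] at m1'
      have m3 := abs_le.1 m1
      have m3' := abs_le.1 m1'
      obtain ⟨hn1, ⟨h6, h7⟩, h8, h9⟩ := hn
      rw [hR, mem_filter]
      refine ⟨hn1, ⟨?_, ?_⟩, ⟨?_, ?_⟩⟩
      · linarith [m3.1, m3.2]
      · linarith [m3.1, m3.2]
      · linarith [m3'.1, m3'.2]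
      · linarith [m3'.1, m3'.2]
  have e1 : (B2.card : ℝ) ≤ R.card + B1.card := by
    have a1 := (card_le_card hsub).trans (card_union_le _ _)
    exact_mod_cast a1
  have e3 : (B1.card : ℝ) / N ≤ m / 4 := by
    rw [div_le_iff₀ hN0]
    exact k1.trans (mul_le_mul_of_nonneg_right hε'2 hN0.le)
  have k3' : |(B2.card : ℝ) / N - ∑ u ∈ univ.filter (fun u : (p : DD.Pz z) → St z =>
      (a + ε ≤ XX z z u ∧ XX z z u ≤ b - ε) ∧ (c + ε ≤ YY z z u ∧ YY z z u ≤ d - ε)), wt z z u| <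
        m / 4 := by
    convert k3
  have e4 : m - m / 4 ≤ (B2.card : ℝ) / N := by
    have := (abs_lt.1 k3').1
    linarith
  have e5 : (B2.card : ℝ) / N ≤ (R.card : ℝ) / N + B1.card / N := by
    rw [← add_div]
    exact div_le_div_of_nonneg_right e1 hN0.le
  linarith

open Classical in
/-- The joint law of `w(n) / n` and `w(w(n)) / w(n)`. -/
theorem law3 : ∃ F : ℝ → ℝ → ℝ, Continuous (fun z : ℝ × ℝ => F z.1 z.2) ∧
    (∀ s t, Tendsto (DJ s t) atTop (𝓝 (F s t))) ∧
    (∀ a b c d, 0 ≤ a → a < b → 0 ≤ c → c < d → 0 < F b d - F a d - F b c + F a c) ∧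
    (∀ s t, s ≤ 0 ∨ t ≤ 0 → F s t = 0) ∧
    Tendsto (fun z : ℝ × ℝ => F z.1 z.2) (atTop ×ˢ atTop) (𝓝 1) := by
  choose F hF using exists_limit3
  have hcont : Continuous (fun z : ℝ × ℝ => F z.1 z.2) := by
    rw [Metric.continuous_iff]
    rintro ⟨s, t⟩ ε hε
    obtain ⟨ε1, L, N0, hε1, h⟩ := sandwich3 s t (ε / 3) (by linarith)
    have key : ∀ s' t', |s' - s| ≤ ε1 → |t' - t| ≤ ε1 → |F s' t' - L| ≤ ε / 3 := by
      intro s' t' hs ht
      have h1 : Tendsto (fun N => |DJ s' t' N - L|) atTop (𝓝 |F s' t' - L|) :=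
        ((hF s' t').sub_const L).abs
      exact le_of_tendsto h1 (eventually_atTop.2 ⟨N0, fun N hN => h N hN s' t' hs ht⟩)
    refine ⟨ε1, hε1, ?_⟩
    rintro ⟨s', t'⟩ hst
    rw [Prod.dist_eq, max_lt_iff, Real.dist_eq, Real.dist_eq] at hst
    rw [Real.dist_eq]
    have h1 := abs_le.1 (key s' t' hst.1.le hst.2.le)
    have h2 := abs_le.1 (key s t (by rw [sub_self, abs_zero]; exact hε1.le)
      (by rw [sub_self, abs_zero]; exact hε1.le))
    rw [abs_lt]
    constructor <;> linarith [h1.1, h1.2, h2.1, h2.2]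
  have hneg : ∀ s t, s < 0 ∨ t < 0 → F s t = 0 := by
    intro s t hst
    have h1 : ∀ N, DJ s t N = 0 := by
      intro N
      unfold DJ
      have : (Icc 1 N).filter (fun n => g1 n ≤ s ∧ g2 n ≤ t) = ∅ := by
        apply filter_eq_empty_iff.2
        rintro n _ ⟨h2, h3⟩
        rcases hst with h | h
        · linarith [g1_nonneg n]
        · linarith [g2_nonneg n]
      rw [this]
      simp
    have h2 : Tendsto (DJ s t) atTop (𝓝 0) := by
      have : DJ s t = fun _ => 0 := funext h1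
      rw [this]
      exact tendsto_const_nhds
    exact tendsto_nhds_unique (hF s t) h2
  refine ⟨F, hcont, hF, ?_, ?_, ?_⟩
  · intro a b c d ha hab hc hcd
    obtain ⟨m, hm, N0, h⟩ := rect a b c d ha hab hc hcd
    have h1 : Tendsto (fun N => DJ b d N - DJ a d N - DJ b c N + DJ a c N) atTop
        (𝓝 (F b d - F a d - F b c + F a c)) :=
      (((hF b d).sub (hF a d)).sub (hF b c)).add (hF a c)
    have h2 : m ≤ F b d - F a d - F b c + F a c :=
      ge_of_tendsto h1 (eventually_atTop.2 ⟨N0, h⟩)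
    linarith
  · intro s t hst
    rcases hst with h | h
    · rcases lt_or_eq_of_le h with h | h
      · exact hneg s t (Or.inl h)
      · subst h
        have h1 : Tendsto (fun u : ℝ => F u t) (𝓝[<] 0) (𝓝 (F 0 t)) :=
          ((hcont.comp (by fun_prop : Continuous fun u : ℝ => (u, t))).continuousAt.tendsto
            (x := (0 : ℝ))).mono_left nhdsWithin_le_nhds
        have h2 : Tendsto (fun u : ℝ => F u t) (𝓝[<] 0) (𝓝 0) := by
          apply Tendsto.congr' _ tendsto_const_nhds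
          filter_upwards [self_mem_nhdsWithin] with u hu
          exact (hneg u t (Or.inl hu)).symm
        exact tendsto_nhds_unique h1 h2
    · rcases lt_or_eq_of_le h with h | h
      · exact hneg s t (Or.inr h)
      · subst h
        have h1 : Tendsto (fun u : ℝ => F s u) (𝓝[<] 0) (𝓝 (F s 0)) :=
          ((hcont.comp (by fun_prop : Continuous fun u : ℝ => (s, u))).continuousAt.tendsto
            (x := (0 : ℝ))).mono_left nhdsWithin_le_nhds
        have h2 : Tendsto (fun u : ℝ => F s u) (𝓝[<] 0) (𝓝 0) := by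
          apply Tendsto.congr' _ tendsto_const_nhds
          filter_upwards [self_mem_nhdsWithin] with u hu
          exact (hneg s u (Or.inr hu)).symm
        exact tendsto_nhds_unique h1 h2
  · rw [Metric.tendsto_nhds]
    intro ε hε
    obtain ⟨K, N0, h⟩ := tight2 (ε / 2) (by linarith)
    have hev : ∀ᶠ z : ℝ × ℝ in atTop ×ˢ atTop, K ≤ z.1 ∧ K ≤ z.2 :=
      (eventually_ge_atTop K).prod_mk (eventually_ge_atTop K)
    filter_upwards [hev] with z hz
    have hle : F z.1 z.2 ≤ 1 := by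
      apply le_of_tendsto' (hF z.1 z.2)
      intro N
      unfold DJ
      rcases Nat.eq_zero_or_pos N with h | h
      · subst h
        simp
      · have hN0 : (0 : ℝ) < N := by exact_mod_cast h
        rw [div_le_one hN0]
        have h1 := card_filter_le (Icc 1 N) (fun n => g1 n ≤ z.1 ∧ g2 n ≤ z.2)
        rw [Nat.card_Icc, Nat.add_sub_cancel] at h1
        exact_mod_cast h1
    have hge : 1 - ε / 2 ≤ F z.1 z.2 := by
      apply ge_of_tendsto (hF z.1 z.2)
      rw [eventually_atTop]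
      refine ⟨max 1 N0, fun N hN => ?_⟩
      have hNp : 1 ≤ N := le_trans (le_max_left _ _) hN
      have hN0 : (0 : ℝ) < N := by exact_mod_cast hNp
      have h2 := h N (le_trans (le_max_right _ _) hN)
      have h3 : N ≤ ((Icc 1 N).filter (fun n => g1 n ≤ z.1 ∧ g2 n ≤ z.2)).card +
          ((Icc 1 N).filter (fun n => K < (wf n : ℝ) / n ∨ K < (wf (wf n) : ℝ) / wf n)).card := by
        have h4 : Icc 1 N ⊆ (Icc 1 N).filter (fun n => g1 n ≤ z.1 ∧ g2 n ≤ z.2) ∪
            (Icc 1 N).filter (fun n => K < (wf n : ℝ) / n ∨ K < (wf (wf n) : ℝ) / wf n) := by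
          intro n hn
          rw [mem_union, mem_filter, mem_filter]
          by_cases h5 : K < (wf n : ℝ) / n ∨ K < (wf (wf n) : ℝ) / wf n
          · exact Or.inr ⟨hn, h5⟩
          · push Not at h5
            exact Or.inl ⟨hn, h5.1.trans hz.1, h5.2.trans hz.2⟩
        have h5 := (card_le_card h4).trans (card_union_le _ _)
        rw [Nat.card_Icc, Nat.add_sub_cancel] at h5
        exact h5
      have h6 : (N : ℝ) ≤ ((Icc 1 N).filter (fun n => g1 n ≤ z.1 ∧ g2 n ≤ z.2)).card +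
          ((Icc 1 N).filter (fun n => K < (wf n : ℝ) / n ∨ K < (wf (wf n) : ℝ) / wf n)).card := by
        exact_mod_cast h3
      unfold DJ
      rw [le_div_iff₀ hN0]
      linarith
    rw [Real.dist_eq, abs_lt]
    constructor <;> linarith

end Pool.Agent.H31.JL
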