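import Mathlib

/-!
# JL MBor: a measurable function is close to a continuous one outside a small set
-/

set_option autoImplicit false

namespace Pool.Agent.H31.JL

open Filter Topology MeasureTheory
open scoped ENNReal

theorem meas_approx (ν : Measure ℝ) [IsFiniteMeasure ν] (f : ℝ → ℝ) (hf : Measurable f)
    (ε η : ℝ) (hε : 0 < ε) (hη : 0 < η) :
    ∃ g : ℝ → ℝ, Continuous g ∧ ν {x | ε ≤ |f x - g x|} ≤ ENNReal.ofReal η := by
  have hη2 : (0 : ℝ≥0∞) < ENNReal.ofReal (η / 2) := ENNReal.ofReal_pos.2 (by linarith)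
  -- truncation
  obtain ⟨T, hT0, hT⟩ : ∃ T : ℝ, 0 ≤ T ∧ ν {x | T < |f x|} ≤ ENNReal.ofReal (η / 2) := by
    have h1 := tendsto_measure_norm_gt_of_isTightMeasureSet
      (isTightMeasureSet_singleton (μ := ν.map f))
    simp only [Set.mem_singleton_iff, iSup_iSup_eq_left] at h1
    obtain ⟨T, hT, hT0⟩ := ((h1.eventually (gt_mem_nhds hη2)).and (eventually_ge_atTop 0)).exists
    refine ⟨T, hT0, ?_⟩
    rw [Measure.map_apply hf (measurableSet_lt measurable_const measurable_norm)] at hT
    exact hT.le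
  have hm : Measurable (fun x => max (-T) (min (f x) T)) :=
    measurable_const.max (hf.min measurable_const)
  have hb : ∀ x, ‖max (-T) (min (f x) T)‖ ≤ T := by
    intro x
    rw [Real.norm_eq_abs, abs_le]
    exact ⟨le_max_left _ _, max_le (by linarith) (min_le_right _ _)⟩
  have hint : Integrable (fun x => max (-T) (min (f x) T)) ν :=
    Integrable.of_bound hm.aestronglyMeasurable T (Eventually.of_forall hb)
  obtain ⟨g, hg, -⟩ := hint.exists_boundedContinuous_lintegral_sub_le
    (ε := ENNReal.ofReal (ε * (η / 2))) (ENNReal.ofReal_pos.2 (by positivity)).ne'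
  refine ⟨g, g.continuous, ?_⟩
  have h2 := (mul_meas_ge_le_lintegral (μ := ν)
    (f := fun x => ‖max (-T) (min (f x) T) - g x‖ₑ) (by fun_prop) (ENNReal.ofReal ε)).trans hg
  rw [ENNReal.ofReal_mul hε.le] at h2
  have h3 : ν {x | ENNReal.ofReal ε ≤ ‖max (-T) (min (f x) T) - g x‖ₑ} ≤
      ENNReal.ofReal (η / 2) :=
    (ENNReal.mul_le_mul_iff_right (ENNReal.ofReal_pos.2 hε).ne' ENNReal.ofReal_ne_top).1 h2
  have h4 : {x | ε ≤ |f x - g x|} ⊆ {x | T < |f x|} ∪
      {x | ENNReal.ofReal ε ≤ ‖max (-T) (min (f x) T) - g x‖ₑ} := by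
    intro x hx
    by_cases h5 : T < |f x|
    · exact Or.inl h5
    · right
      have h6 := abs_le.1 (not_lt.1 h5)
      have h7 : max (-T) (min (f x) T) = f x := by
        rw [min_eq_left h6.2, max_eq_right h6.1]
      change ENNReal.ofReal ε ≤ ‖max (-T) (min (f x) T) - g x‖ₑ
      rw [h7, Real.enorm_eq_ofReal_abs]
      exact ENNReal.ofReal_le_ofReal hx
  calc ν {x | ε ≤ |f x - g x|} ≤ _ := measure_mono h4
    _ ≤ _ := measure_union_le _ _
    _ ≤ ENNReal.ofReal (η / 2) + ENNReal.ofReal (η / 2) := add_le_add hT h3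
    _ = ENNReal.ofReal η := by
      rw [← ENNReal.ofReal_add (by linarith) (by linarith), add_halves]

end Pool.Agent.H31.JL
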