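import Pool.Agent.H31.JL.Lim3

/-!
# JL MDef: the pair of the two factors, proportions of sets
-/

set_option autoImplicit false

namespace Pool.Agent.H31.JL

open Finset

/-- the pair of the two factors -/
noncomputable def gg (n : ℕ) : ℝ × ℝ := (g1 n, g2 n)

open Classical in
/-- the proportion of the `n ≤ N` with `gg n ∈ A` -/
noncomputable def DA (A : Set (ℝ × ℝ)) (N : ℕ) : ℝ :=
  (((Icc 1 N).filter (fun n => gg n ∈ A)).card : ℝ) / N

end Pool.Agent.H31.JL
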