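import Pool.Agent.H31.JL.Emp
import Pool.Agent.H31.JL.Graph
import Pool.Agent.H31.JL.MBor
import Pool.Agent.H31.JL.CFLaw

/-!
# JL MLaw: the limit measure of the pair `w(n) / n`, `w(w(n)) / w(n)`
-/

set_option autoImplicit false

namespace Pool.Agent.H31.JL

open Finset Filter Topology MeasureTheory
open Pool.Agent.H31.TL
open Pool.Agent.H97.WIter (wf)

open Classical in
private theorem DA_mono {A B : Set (ℝ × ℝ)} (h : ∀ n, gg n ∈ A → gg n ∈ B) (N : ℕ) :
    DA A N ≤ DA B N := by
  unfold DA
  apply div_le_div_of_nonneg_right _ (Nat.cast_nonneg N)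
  have h1 : (Icc 1 N).filter (fun n => gg n ∈ A) ⊆ (Icc 1 N).filter (fun n => gg n ∈ B) := by
    intro n hn
    rw [mem_filter] at hn ⊢
    exact ⟨hn.1, h n hn.2⟩
  exact_mod_cast card_le_card h1

open Classical in
private theorem DA_zero {A : Set (ℝ × ℝ)} (h : ∀ n, gg n ∉ A) (N : ℕ) : DA A N = 0 := by
  unfold DA
  rw [filter_eq_empty_iff.2 (fun n _ => h n)]
  simp

private theorem gg_mem (n : ℕ) : gg n ∈ (Set.Ici (0 : ℝ)) ×ˢ (Set.Ici (0 : ℝ)) :=
  ⟨g1_nonneg n, g2_nonneg n⟩

open Classical in
private theorem prod_one (N : ℕ) (hN : 1 ≤ N) (c : ℝ)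
    (h : (((Icc 1 N).filter (fun n => n ≤ wf (wf n))).card : ℝ) ≤ N * c) :
    1 - c ≤ DA {z | z.1 * z.2 ≤ 1} N := by
  have hN0 : (0 : ℝ) < N := by exact_mod_cast hN
  have h3 : N ≤ ((Icc 1 N).filter (fun n => gg n ∈ {z : ℝ × ℝ | z.1 * z.2 ≤ 1})).card +
      ((Icc 1 N).filter (fun n => n ≤ wf (wf n))).card := by
    have h4 : Icc 1 N ⊆ (Icc 1 N).filter (fun n => gg n ∈ {z : ℝ × ℝ | z.1 * z.2 ≤ 1}) ∪
        (Icc 1 N).filter (fun n => n ≤ wf (wf n)) := by
      intro n hn
      rw [mem_union, mem_filter, mem_filter]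
      rcases le_total (wf (wf n)) n with h5 | h5
      · left
        refine ⟨hn, ?_⟩
        have hn1 : (0 : ℝ) < n := by exact_mod_cast (mem_Icc.1 hn).1
        have h6 : (wf (wf n) : ℝ) ≤ n := by exact_mod_cast h5
        change g1 n * g2 n ≤ 1
        unfold g1 g2
        rcases eq_or_ne (wf n : ℝ) 0 with h7 | h7
        · rw [h7]
          simp
        · have h8 : (wf n : ℝ) / n * ((wf (wf n) : ℝ) / wf n) = (wf (wf n) : ℝ) / n := by
            field_simp
          rw [h8, div_le_one hn1]
          exact h6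
      · exact Or.inr ⟨hn, h5⟩
    have h5 := (card_le_card h4).trans (card_union_le _ _)
    rw [Nat.card_Icc, Nat.add_sub_cancel] at h5
    exact h5
  have h6 : (N : ℝ) ≤ ((Icc 1 N).filter (fun n => gg n ∈ {z : ℝ × ℝ | z.1 * z.2 ≤ 1})).card +
      ((Icc 1 N).filter (fun n => n ≤ wf (wf n))).card := by exact_mod_cast h3
  unfold DA
  rw [le_div_iff₀ hN0]
  linarith

theorem mlaw : ∃ μ : Measure (ℝ × ℝ), IsProbabilityMeasure μ ∧
    (∀ A : Set (ℝ × ℝ), μ (frontier A) = 0 → Tendsto (DA A) atTop (𝓝 (μ.real A))) ∧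
    (∀ U : Set (ℝ × ℝ), IsOpen U → (μ U = 0 ↔ Disjoint U (Set.Ici 0 ×ˢ Set.Ici 0))) ∧
    (∀ f : ℝ → ℝ, Measurable f → μ {z | z.2 = f z.1} = 0 ∧ μ {z | z.1 = f z.2} = 0) ∧
    (∀ t : ℝ, μ {z | z.1 * z.2 = t} = 0) ∧ 1 - 1 / 10 ^ 80 ≤ μ.real {z | z.1 * z.2 ≤ 1} ∧
    (∀ s t : ℝ, Tendsto (fun z : ℕ => ∏ p ∈ Nat.primesBelow z, cf p s t) atTop
      (𝓝 (∫ x, Complex.exp (((s * x.1 + t * x.2 : ℝ) : ℂ) * Complex.I) ∂μ))) := by
  obtain ⟨μ, hμ, hA, hU, hK, hφ⟩ := exists_measure
  have hreal : ∀ S : Set (ℝ × ℝ), μ.real S ≤ 0 → μ S = 0 := by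
    intro S hS
    have h1 : μ.real S = 0 := le_antisymm hS measureReal_nonneg
    rw [measureReal_eq_zero_iff] at h1
    exact h1
  have hsupp : ∀ U : Set (ℝ × ℝ), IsOpen U →
      (μ U = 0 ↔ Disjoint U (Set.Ici 0 ×ˢ Set.Ici 0)) := by
    intro U hUo
    constructor
    · intro h0
      rw [Set.disjoint_left]
      rintro ⟨x, y⟩ hx ⟨hx0, hy0⟩
      obtain ⟨r, hr, hball⟩ := Metric.isOpen_iff.1 hUo (x, y) hx
      have hx0' : (0 : ℝ) ≤ x := hx0
      have hy0' : (0 : ℝ) ≤ y := hy0
      obtain ⟨m, hm, N0, hrect⟩ := rect (x + r / 4) (x + r / 2) (y + r / 4) (y + r / 2)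
        (by linarith) (by linarith) (by linarith) (by linarith)
      have hcl : IsClosed (Set.Icc (x + r / 4) (x + r / 2) ×ˢ Set.Icc (y + r / 4) (y + r / 2)) :=
        isClosed_Icc.prod isClosed_Icc
      have h1 := hK _ hcl m (by
        rw [eventually_atTop]
        refine ⟨N0, fun N hN => (hrect N hN).trans ?_⟩
        rw [rect_count _ _ _ _ (by linarith) (by linarith)]
        unfold DA
        apply div_le_div_of_nonneg_right _ (Nat.cast_nonneg N)
        have h2 : (Icc 1 N).filter (fun n => (x + r / 4 < g1 n ∧ g1 n ≤ x + r / 2) ∧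
            (y + r / 4 < g2 n ∧ g2 n ≤ y + r / 2)) ⊆ (Icc 1 N).filter (fun n => gg n ∈
            Set.Icc (x + r / 4) (x + r / 2) ×ˢ Set.Icc (y + r / 4) (y + r / 2)) := by
          intro n hn
          rw [mem_filter] at hn ⊢
          obtain ⟨h1, ⟨h2, h3⟩, h4, h5⟩ := hn
          exact ⟨h1, ⟨h2.le, h3⟩, ⟨h4.le, h5⟩⟩
        exact_mod_cast card_le_card h2)
      have hsub : Set.Icc (x + r / 4) (x + r / 2) ×ˢ Set.Icc (y + r / 4) (y + r / 2) ⊆ U := by
        rintro ⟨u, v⟩ ⟨⟨h2, h3⟩, h4, h5⟩
        apply hball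
        simp only at h2 h3 h4 h5
        rw [Metric.mem_ball, Prod.dist_eq, max_lt_iff, Real.dist_eq, Real.dist_eq]
        constructor
        · rw [abs_lt]
          constructor <;> linarith
        · rw [abs_lt]
          constructor <;> linarith
      have h2 : μ (Set.Icc (x + r / 4) (x + r / 2) ×ˢ Set.Icc (y + r / 4) (y + r / 2)) = 0 :=
        measure_mono_null hsub h0
      have h3 : μ.real (Set.Icc (x + r / 4) (x + r / 2) ×ˢ Set.Icc (y + r / 4) (y + r / 2)) = 0 := by
        rw [measureReal_def, h2]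
        simp
      linarith
    · intro hd
      apply hreal
      apply hU U hUo 0
      refine Eventually.of_forall fun N => le_of_eq (DA_zero (fun n hn => ?_) N)
      exact Set.disjoint_left.1 hd hn (gg_mem n)
  have hgraph : ∀ f : ℝ → ℝ, Measurable f → μ {z | z.2 = f z.1} = 0 ∧ μ {z | z.1 = f z.2} = 0 := by
    intro f hf
    have key : ∀ (π ρ : ℝ × ℝ → ℝ), Continuous π → Continuous ρ → (∀ η : ℝ, 0 < η → ∃ ε : ℝ, 0 < ε ∧
        ∀ g : ℝ → ℝ, Continuous g → ∀ᶠ N in atTop, DA {z | |ρ z - g (π z)| < ε} N ≤ η) →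
        μ {z | ρ z = f (π z)} = 0 := by
      intro π ρ hπ hρ h
      have hsmall : ∀ η : ℝ, 0 < η → μ {z | ρ z = f (π z)} ≤ ENNReal.ofReal η := by
        intro η hη
        obtain ⟨ε, hε, h1⟩ := h (η / 2) (by linarith)
        haveI : IsFiniteMeasure (μ.map π) := by
          haveI := Measure.isProbabilityMeasure_map (μ := μ) hπ.measurable.aemeasurable
          infer_instance
        obtain ⟨g, hg, h2⟩ := meas_approx (μ.map π) f hf ε (η / 2) hε (by linarith)
        have hms : MeasurableSet {x | ε ≤ |f x - g x|} :=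
          measurableSet_le measurable_const ((hf.sub hg.measurable).abs)
        rw [Measure.map_apply hπ.measurable hms] at h2
        have h3 := hU {z | |ρ z - g (π z)| < ε}
          (isOpen_lt ((hρ.sub (hg.comp hπ)).abs) continuous_const) (η / 2) (h1 g hg)
        have h4 : μ {z | |ρ z - g (π z)| < ε} ≤ ENNReal.ofReal (η / 2) := by
          rw [measureReal_def] at h3
          exact (ENNReal.le_ofReal_iff_toReal_le (measure_ne_top _ _) (by linarith)).2 h3
        have h5 : {z | ρ z = f (π z)} ⊆ {z | |ρ z - g (π z)| < ε} ∪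
            π ⁻¹' {x | ε ≤ |f x - g x|} := by
          intro z hz
          by_cases h6 : |ρ z - g (π z)| < ε
          · exact Or.inl h6
          · right
            have hz' : ρ z = f (π z) := hz
            rw [hz'] at h6
            exact not_lt.1 h6
        calc μ {z | ρ z = f (π z)} ≤ _ := measure_mono h5
          _ ≤ _ := measure_union_le _ _
          _ ≤ ENNReal.ofReal (η / 2) + ENNReal.ofReal (η / 2) := add_le_add h4 h2
          _ = ENNReal.ofReal η := by
            rw [← ENNReal.ofReal_add (by linarith) (by linarith), add_halves]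
      apply hreal
      apply le_of_forall_pos_le_add
      intro η hη
      rw [zero_add, measureReal_def]
      exact ENNReal.toReal_le_of_le_ofReal hη.le (hsmall η hη)
    constructor
    · apply key Prod.fst Prod.snd continuous_fst continuous_snd
      intro η hη
      obtain ⟨ε, hε, h⟩ := graph_small η hη
      exact ⟨ε, hε, fun g hg => (h g hg).mono fun N hN => hN.1⟩
    · apply key Prod.snd Prod.fst continuous_snd continuous_fst
      intro η hη
      obtain ⟨ε, hε, h⟩ := graph_small η hη
      exact ⟨ε, hε, fun g hg => (h g hg).mono fun N hN => hN.2⟩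
  have hQ : μ (Set.Ici (0 : ℝ) ×ˢ Set.Ici (0 : ℝ))ᶜ = 0 := by
    rw [hsupp _ (isClosed_Ici.prod isClosed_Ici).isOpen_compl]
    exact disjoint_compl_left
  refine ⟨μ, hμ, hA, hsupp, hgraph, ?_, ?_, ?_⟩
  · intro t
    rcases lt_or_ge t 0 with ht | ht
    · apply measure_mono_null _ hQ
      rintro ⟨x, y⟩ hz ⟨hx, hy⟩
      have h1 : x * y = t := hz
      have h2 : (0 : ℝ) ≤ x := hx
      have h3 : (0 : ℝ) ≤ y := hy
      have := mul_nonneg h2 h3
      linarith
    · obtain ⟨c, hc⟩ : ∃ c : ℝ, c = max (Real.sqrt t) (if t = 0 then 1 else 0) := ⟨_, rfl⟩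
      have hc0 : 0 < c := by
        rw [hc]
        rcases eq_or_lt_of_le ht with h | h
        · rw [← h, if_pos rfl]
          exact lt_max_of_lt_right one_pos
        · exact lt_max_of_lt_left (Real.sqrt_pos.2 h)
      have hf : Continuous fun x : ℝ => t / max x c :=
        continuous_const.div (continuous_id.max continuous_const)
          (fun x => (lt_of_lt_of_le hc0 (le_max_right _ _)).ne')
      have h1 := hgraph _ hf.measurable
      apply measure_mono_null _ (measure_union_null hQ (measure_union_null h1.1 h1.2))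
      rintro ⟨x, y⟩ hz
      by_cases hxy : (x, y) ∈ Set.Ici (0 : ℝ) ×ˢ Set.Ici (0 : ℝ)
      · right
        obtain ⟨hx, hy⟩ := hxy
        have hx' : (0 : ℝ) ≤ x := hx
        have hy' : (0 : ℝ) ≤ y := hy
        have hz' : x * y = t := hz
        rcases eq_or_lt_of_le ht with h | h
        · have h0 : x * y = 0 := by rw [hz', h]
          rcases mul_eq_zero.1 h0 with h2 | h2
          · right
            change x = t / max y c
            rw [← h, zero_div, h2]
          · left
            change y = t / max x c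
            rw [← h, zero_div, h2]
        · have hcs : c = Real.sqrt t := by
            rw [hc, if_neg h.ne']
            exact max_eq_left (Real.sqrt_nonneg t)
          have hss : Real.sqrt t * Real.sqrt t = t := Real.mul_self_sqrt ht
          rcases le_total (Real.sqrt t) x with h2 | h2
          · left
            change y = t / max x c
            rw [hcs, max_eq_left h2]
            have hxp : 0 < x := lt_of_lt_of_le (Real.sqrt_pos.2 h) h2
            rw [eq_div_iff hxp.ne', mul_comm]
            exact hz'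
          · right
            have h3 : Real.sqrt t ≤ y := by
              by_contra hcon
              push Not at hcon
              have h4 : x * y < t := by
                calc x * y ≤ Real.sqrt t * y := mul_le_mul_of_nonneg_right h2 hy'
                  _ < Real.sqrt t * Real.sqrt t :=
                      mul_lt_mul_of_pos_left hcon (Real.sqrt_pos.2 h)
                  _ = t := hss
              linarith
            change x = t / max y c
            rw [hcs, max_eq_left h3]
            have hyp : 0 < y := lt_of_lt_of_le (Real.sqrt_pos.2 h) h3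
            rw [eq_div_iff hyp.ne']
            exact hz'
      · exact Or.inl hxy
  · apply hK _ (isClosed_le (by fun_prop) continuous_const)
    obtain ⟨N0, h⟩ := DD.main
    rw [eventually_atTop]
    refine ⟨max 1 N0, fun N hN => ?_⟩
    apply prod_one N (le_trans (le_max_left _ _) hN)
    have h2 := h N (le_trans (le_max_right _ _) hN)
    have h7 : (N : ℝ) * (1 / 10 ^ 80) = N / 10 ^ 80 := by ring
    rw [h7]
    exact h2
  · intro s t
    exact (tendsto_add_atTop_iff_nat 1).1 (cf_law μ hφ s t)

end Pool.Agent.H31.JL
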